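import Pool.Agent.H29.KT.Main

/-!
# The Beauville-Bogomolov form of hyperkaehler fourfolds with second Betti number at least nine

By Guan `b_2 >= 9` implies `b_2 = 23` and `b_3 = 0`.  `DefClass` (file `Pool/Agent/H73/HK/Iface`)
is a deformation class of hyperkaehler fourfolds with `b_2 = 23`, `Class23` (file
`Pool/Agent/H29/KT/Defs`) collects the published facts which are used besides those in `DefClass`.
No Lagrangian fibration and no deformation type is assumed.

PROOF (files `Pool/Agent/H73/HK`, `Pool/Agent/H11/KT`, `Pool/Agent/H29/KT`).
* `HK.main`: nef classes are semiample. So a member of Picard number two with a nef isotropic class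
  `x` has a Lagrangian fibration over the plane.
* `Num`: `Q = a q`, `a = C(c_2)/30`, is integral and even, `f_X = 3 a^2`, `a` is an integer; the
  polarisation of the fibres has type `(1, t^2)`.
* `Classify`: the local monodromies in `Sp_4(Z)`.
* `Count`: the divisors over the discriminant are irreducible, `sum deg rk >= 29`. As `chi_10` is a
  section of `O(30)` this excludes all but the simplest monodromies, the universal binary sextic is
  holomorphic along the discriminant and defines a plane sextic, which is smooth (one node would
  give `h^1 = 20`, not `21`).  If all the abelian surfaces `F'` were products, one had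
  `sum deg rk <= 28`.
* `End`: `H_1(F)` is invariant under conjugate transvections which generate `H_1(F')`; so `t = 1`.
  The hyperbolic plane in the lattice of the K3 surface gives classes `l, m` with
  `a q(l, m) = 1` or `-1`; so `a = 1`.
-/

namespace Pool.Agent.Results.MP_7f2be9_ag.FourfoldParity

open Pool.Agent.H73.HK Pool.Agent.H29.KT

/-- For every deformation class of hyperkaehler fourfolds with `b_2 = 23` the Beauville-Bogomolov
form `q` is even, and Fujiki's constant is `3`. -/
theorem result {Lam : Type} [AddCommGroup Lam] (C : DefClass Lam) (K : Class23 C) :
    (∀ b : Lam, Even (C.q b b)) ∧ K.fuj = 3 :=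
  parity Lam C K

end Pool.Agent.Results.MP_7f2be9_ag.FourfoldParity
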