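import Pool.Agent.Results.MP_7f2be9_ag.RiemannRochParity

/-!
# Lagrangian fibrations and the parity of the Beauville-Bogomolov form

Let `X` be a hyperkähler manifold of dimension `2 r` with a Lagrangian fibration `π : X → P^r`, `x` the
pull-back of the hyperplane class, `F` a general fibre, `H = H_1(F, Z)`, `E` the primitive invariant
polarisation, of degree `pf`, and `Δ` the discriminant.

* A general line meets `Δ` in `k` points; the meridians `γ_0, .., γ_(k-1)` generate the fundamental group `Q`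
  of the complement of `Δ` and their product is `1`. Each `γ_j` acts on `H` as a product of transvections
  `τ_i y = y + φ_i(y) v_i`, `g_i φ_i = E(v_i, ·)`: one for an irreducible nodal fibre, two for an
  irreducible cuspidal fibre (Picard-Lefschetz); `e` is the total number of transvections.
* By the Leray spectral sequence `x^⊥ / Z x` is the group of parabolic classes of `Q` with values in
  `H^1(F, Z) = Hom(H, Z)`. A parabolic cocycle `c` is the coboundary of some `λ` on each `γ_j` and has the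
  coordinates `a_i = λ(v_i)`.
* The cup product of two parabolic classes, restricted to the line, is `- S(a, b)`, and for a class `w` whose
  restriction to `F` is `m` times the polarisation, `δ = b(x, w)`, the Fujiki relation gives
  `m b(y, z) = - δ S(a_y, a_z)` on `x^⊥` and `f δ^r 2^r r! = (2 r)! m^r pf`.

* If `Δ` is irreducible and its general plane section has only nodes and cusps, a pencil of lines in a general
  plane gives the tangency classes of `Tangency`.

These facts (Leray, Picard-Lefschetz, Zariski-van Kampen, Fujiki, Riemann-Roch) are published theorems; they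
are the fields of `LagrangianData` and are not proved here. We prove: the group of all `a ∈ Z^e` which come from
`x^⊥` is saturated in `Z^e` (a cocycle of `Q` which is divisible by `n` on the meridians is divisible by `n`), of rank
`b_2 - 2 + 2 r`, and the matrix of `S` is unitriangular up to the numbers `g_i`. If `m` does not divide `δ`, a
prime divides `S` on this group, so `2 (b_2 - 2 + 2 r) ≤ e`. If `m` divides `δ` the Fujiki constant is
`(2 r - 1)!! pf / (δ / m)^r`, and Riemann-Roch shows that an odd value of `q` forces powers of two to divide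
`pf`.
-/

namespace Pool.Agent.Results.MP_7f2be9_ag.LagrangianParity

open Finset Module Pool.Agent.Results.MP_7f2be9_ag.RiemannRochParity

/-- The monodromy of `H = H_1(F, ℤ)` for a Lagrangian fibration with general fibre `F`. -/
structure Monodromy where
  /-- `H_1(F, ℤ)` -/
  H : Type
  [grp : AddCommGroup H]
  [free : Module.Free ℤ H]
  [fin : Module.Finite ℤ H]
  /-- the primitive polarisation -/
  E : H →ₗ[ℤ] H →ₗ[ℤ] ℤ
  alt : ∀ y, E y y = 0
  nondeg : ∀ y, (∀ z, E y z = 0) → y = 0
  primitive : ∀ d : ℕ, (∀ y z, (d : ℤ) ∣ E y z) → d = 1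
  /-- the number of vanishing cycles over a general line -/
  e : ℕ
  /-- the vanishing cycles -/
  v : ℕ → H
  /-- the divisibility of `E (v i)` -/
  g : ℕ → ℕ
  g_pos : ∀ i, 0 < g i
  φ : ℕ → H →ₗ[ℤ] ℤ
  vanishing : ∀ i < e, ∀ y, E (v i) y = g i * φ i y
  /-- the transvections -/
  τ : ℕ → (H ≃ₗ[ℤ] H)
  picard : ∀ i < e, ∀ y, τ i y = y + φ i y • v i
  span : Submodule.span ℤ (v '' Set.Iio e) = ⊤
  /-- the fundamental group of the complement of the discriminant -/
  Q : Type
  [grpQ : Group Q]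
  /-- the monodromy -/
  ρ : Q →* (H ≃ₗ[ℤ] H)
  /-- the number of singular fibres over a general line -/
  k : ℕ
  /-- the meridians in a general line -/
  γ : ℕ → Q
  gen : Subgroup.closure (γ '' Set.Iio k) = ⊤
  prod_eq : ((List.range k).map γ).prod = 1
  /-- the vanishing cycles of the `j`-th singular fibre are the `v i` with `n j ≤ i < n (j + 1)` -/
  n : ℕ → ℕ
  n_zero : n 0 = 0
  n_mono : Monotone n
  n_last : n k = e
  meridian : ∀ j ≤ k, ρ ((List.range j).map γ).prod = ((List.range (n j)).map τ).prod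
  saturated : ∀ j < k, ∀ (c : ℤ) (y : H), c ≠ 0 →
    c • y ∈ Submodule.span ℤ (v '' Set.Ico (n j) (n (j + 1))) →
      y ∈ Submodule.span ℤ (v '' Set.Ico (n j) (n (j + 1)))

attribute [instance] Monodromy.grp Monodromy.free Monodromy.fin Monodromy.grpQ

namespace Monodromy

variable (M : Monodromy)

/-- the transported vanishing cycle `τ_0 ⋯ τ_(i-1) v_i` -/
def u (i : ℕ) : M.H := ((List.range i).map M.τ).prod (M.v i)

/-- `a` is the coordinate vector of a parabolic cocycle: there is a cocycle `c` of `Q` with values in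
`H^1(F, ℤ) = Hom(H, ℤ)`, on each meridian `γ_j` it is the coboundary of some `l`, and `a_i = l(v_i)`
for the vanishing cycles of the `j`-th fibre. -/
def IsPar (a : Fin M.e → ℤ) : Prop := ∃ c : M.Q → M.H → ℤ,
  (∀ g y z, c g (y + z) = c g y + c g z) ∧ (∀ g h y, c (g * h) y = c g y + c h (M.ρ g⁻¹ y)) ∧
    ∀ j < M.k, ∃ l : M.H →ₗ[ℤ] ℤ, (∀ y, c (M.γ j) y = l y - l (M.ρ (M.γ j)⁻¹ y)) ∧
      ∀ i : Fin M.e, M.n j ≤ i → (i : ℕ) < M.n (j + 1) → a i = l (M.v i)

/-- `a` is the coordinate vector of a coboundary. -/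
def IsCob (a : Fin M.e → ℤ) : Prop := ∃ l : M.H →ₗ[ℤ] ℤ, ∀ i : Fin M.e, a i = l (M.v i)

/-- The cup product form on parabolic cocycles, in coordinates (up to sign). -/
def S (a b : Fin M.e → ℤ) : ℚ :=
  (∑ i, (a i : ℚ) * b i / M.g i) + ∑ j : Fin M.e, ∑ i : Fin M.e,
    if j < i then (M.E (M.u j) (M.u i) : ℚ) * (a j * b i) / (M.g j * M.g i) else 0

/-- The polarisation `E` has degree `pf` (`H` of rank `2 r`). -/
def HasDegree (r pf : ℕ) : Prop := ∀ B : Basis (Fin (2 * r)) ℤ M.H,
  (Matrix.of fun i j => M.E (B i) (B j)).det = (pf : ℤ) ^ 2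

/-- the degree of the discriminant, counted with multiplicities -/
def deg : ℚ := ∑ i : Fin M.e, (1 : ℚ) / M.g i

/-- Closed vectors: they represent the classes over a general line (modulo coboundaries). -/
def IsClosed (a : Fin M.e → ℤ) : Prop :=
  ∀ y, ∑ i : Fin M.e, (a i : ℚ) / M.g i * M.E (M.u i) y = 0

/-- The tangency classes: a general pencil of lines in a general plane, for an irreducible discriminant
whose general plane section has only nodes and cusps. -/
structure Tangency where
  same : ∃ d, ∀ i < M.e, M.g i = d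
  /-- the vanishing classes of the tangent lines -/
  T : Set (Fin M.e → ℤ)
  closed : ∀ t ∈ T, M.IsClosed t
  norm : ∀ t ∈ T, M.S t t = 2
  connected : ∀ U ⊆ T, (∀ t ∈ U, ∀ t' ∈ T, t' ∉ U → M.S t t' = 0) → U = ∅ ∨ U = T
  definite : ∀ a ∈ Submodule.span ℤ T, 0 ≤ M.S a a ∧ (M.S a a = 0 → M.IsCob a)
  orthogonal : ∀ a, M.IsPar a → ∀ t ∈ T, M.S a t = 0
  zariski : ∀ a, M.IsClosed a → (∀ t ∈ T, M.S a t = 0) → M.IsPar a

end Monodromy

/-- The Leray spectral sequence of a Lagrangian fibration in degree two: the isomorphism of `x^⊥ / ℤ x`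
with the group of parabolic classes. -/
structure Leray {Λ : Type} [AddCommGroup Λ] (b : LinearMap.BilinForm ℤ Λ) (x : Λ)
    (M : Monodromy) where
  /-- `rep a y`: the cocycle `a` represents the class `y` -/
  rep : (Fin M.e → ℤ) → Λ → Prop
  add : ∀ a a' y y', rep a y → rep a' y' → rep (a + a') (y + y')
  neg : ∀ a y, rep a y → rep (-a) (-y)
  par : ∀ a y, rep a y → M.IsPar a
  perp : ∀ y, b x y = 0 ↔ ∃ a, rep a y
  cob : ∀ a, rep a 0 ↔ M.IsCob a
  ker : ∀ y, rep 0 y ↔ ∃ n : ℤ, y = n • x
  all : ∀ a, M.IsPar a → ∃ y, rep a y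

/-- The data of a hyperkähler manifold with a Lagrangian fibration. -/
structure LagrangianData (Λ : Type) [AddCommGroup Λ] where
  /-- the lattice, the Fujiki constant and the Riemann-Roch polynomial -/
  X : HKData Λ
  /-- the monodromy of the fibration -/
  M : Monodromy
  rank_fibre : Module.finrank ℤ M.H = 2 * X.r
  /-- the degree `∏ d_i` of the primitive polarisation -/
  pf : ℕ
  degree : M.HasDegree X.r pf
  /-- the class of the hyperplane pulled back from the base -/
  x : Λ
  x_ne : x ≠ 0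
  isotropic : X.b x x = 0
  /-- a class restricting to `m` times the polarisation -/
  w : Λ
  δ : ℕ
  δ_pos : 0 < δ
  pairing : X.b x w = δ
  m : ℕ
  m_pos : 0 < m
  fujiki : X.f * (δ : ℤ) ^ X.r * (2 ^ X.r * X.r.factorial : ℕ) =
    ((2 * X.r).factorial : ℕ) * (m : ℤ) ^ X.r * pf
  /-- the Leray spectral sequence in degree two -/
  L : Leray X.b x M
  form : ∀ a b y z, L.rep a y → L.rep b z → (m : ℚ) * X.b y z = -((δ : ℚ) * M.S a b)

/-! ### Trees of roots -/

section Tree

variable {A : Type} [AddCommGroup A] (B : A →ₗ[ℤ] A →ₗ[ℤ] ℤ)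

/-- A tree of vectors of norm two: `δ_j`, `0 < j < k`, is orthogonal to all earlier ones except
`δ_(par j)`. -/
structure IsTree (k : ℕ) (δ : ℕ → A) (par : ℕ → ℕ) : Prop where
  norm : ∀ i < k, B (δ i) (δ i) = 2
  par_lt : ∀ j < k, 0 < j → par j < j
  gram : ∀ i j, i < j → j < k → B (δ j) (δ i) = if i = par j then -1 else 0
  indep : ∀ x : ℕ → ℤ, B (∑ i ∈ range k, x i • δ i) (∑ i ∈ range k, x i • δ i) = 0 →
    ∀ i < k, x i = 0

variable {B}

theorem IsTree.mono {k : ℕ} {δ : ℕ → A} {par : ℕ → ℕ} (h : IsTree B (k + 1) δ par) :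
    IsTree B k δ par where
  norm i hi := h.norm i (by omega)
  par_lt j hj := h.par_lt j (by omega)
  gram i j hij hj := h.gram i j hij (by omega)
  indep x hx i hi := by
    have h1 := h.indep (fun i => if i < k then x i else 0) (by
      rw [Finset.sum_range_succ, if_neg (lt_irrefl k), zero_smul, add_zero]
      rwa [Finset.sum_congr rfl fun i hi => by rw [if_pos (Finset.mem_range.1 hi)]]) i (by omega)
    rwa [if_pos hi] at h1

/-- the product of a new vector with a combination -/
theorem IsTree.last {k : ℕ} {δ : ℕ → A} {par : ℕ → ℕ} (h : IsTree B (k + 1) δ par) (hk : 0 < k)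
    (x : ℕ → ℤ) : B (δ k) (∑ i ∈ range k, x i • δ i) = -x (par k) := by
  rw [map_sum, Finset.sum_eq_single (par k)]
  · rw [map_smul, h.gram (par k) k (h.par_lt k (Nat.lt_succ_self k) hk) (Nat.lt_succ_self k),
      if_pos rfl, smul_eq_mul]
    ring
  · intro i hi hne
    rw [map_smul, h.gram i k (Finset.mem_range.1 hi) (Nat.lt_succ_self k), if_neg hne, smul_zero]
  · intro hn
    exact absurd (Finset.mem_range.2 (h.par_lt k (Nat.lt_succ_self k) hk)) hn

/-- the norm of a combination of the vertices of a tree -/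
theorem IsTree.norm_sum (hsymm : ∀ a b, B a b = B b a) {δ : ℕ → A} {par : ℕ → ℕ} (x : ℕ → ℤ)
    (k : ℕ) (h : IsTree B k δ par) :
    B (∑ i ∈ range k, x i • δ i) (∑ i ∈ range k, x i • δ i) =
      ∑ i ∈ range k, 2 * x i ^ 2 - ∑ i ∈ range k, if 0 < i then 2 * x i * x (par i) else 0 := by
  induction k with
  | zero => simp
  | succ k ih =>
    have h1 := ih h.mono
    rw [Finset.sum_range_succ, Finset.sum_range_succ, Finset.sum_range_succ]
    set s := ∑ i ∈ range k, x i • δ i with hs
    have h2 : B (s + x k • δ k) (s + x k • δ k) =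
        B s s + 2 * x k * B (δ k) s + x k ^ 2 * B (δ k) (δ k) := by
      simp only [map_add, LinearMap.add_apply, map_smul, LinearMap.smul_apply, smul_eq_mul]
      rw [hsymm s (δ k)]
      ring
    rw [h2, h1, h.norm k (Nat.lt_succ_self k)]
    rcases Nat.eq_zero_or_pos k with hk | hk
    · subst hk
      rw [hs]
      simp
      ring
    · rw [if_pos hk, hs, h.last hk]
      ring

variable (B) in
/-- The childless vertices of a tree. -/
def childless (k : ℕ) (par : ℕ → ℕ) : Finset ℕ :=
  (range k).filter fun i => ∀ j < k, 0 < j → par j ≠ i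

/-- There are at most three childless vertices, if the form is positive. -/
theorem IsTree.card_childless (hsymm : ∀ a b, B a b = B b a) (hpos : ∀ a, 0 ≤ B a a) {δ : ℕ → A}
    {par : ℕ → ℕ} (k : ℕ) (h : IsTree B k δ par) : (childless k par).card ≤ 3 := by
  classical
  rcases Nat.eq_zero_or_pos k with hk | hk
  · subst hk
    simp [childless]
  let x : ℕ → ℤ := fun i => if i ∈ childless k par then 1 else 2
  have hx : ∀ i, x i = if i ∈ childless k par then 1 else 2 := fun _ => rfl
  have h1 := h.norm_sum hsymm x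
  have h2 : ∀ i ∈ range k, (if 0 < i then 2 * x i * x (par i) else 0) =
      4 * x i - if i = 0 then 4 * x 0 else 0 := by
    intro i hi
    have hik := Finset.mem_range.1 hi
    rcases Nat.eq_zero_or_pos i with h0 | h0
    · subst h0
      simp
    · rw [if_pos h0, if_neg h0.ne']
      have h3 : x (par i) = 2 := by
        rw [hx, if_neg]
        intro h4
        exact (Finset.mem_filter.1 h4).2 i hik h0 rfl
      rw [h3]
      ring
  rw [Finset.sum_congr rfl h2, Finset.sum_sub_distrib, Finset.sum_ite_eq' (range k) 0,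
    if_pos (Finset.mem_range.2 hk)] at h1
  have h3 : ∑ i ∈ range k, 2 * x i ^ 2 - ∑ i ∈ range k, 4 * x i =
      -2 * ((childless k par).card : ℤ) := by
    rw [← Finset.sum_sub_distrib]
    have h4 : ∀ i ∈ range k, 2 * x i ^ 2 - 4 * x i = if i ∈ childless k par then -2 else 0 := by
      intro i _
      rw [hx]
      split_ifs <;> norm_num
    have h5 : range k ∩ childless k par = childless k par :=
      Finset.inter_eq_right.2 (Finset.filter_subset _ _)
    rw [Finset.sum_congr rfl h4, Finset.sum_ite_mem, h5, Finset.sum_const, nsmul_eq_mul]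
    ring
  have h5 : x 0 ≤ 2 := by
    rw [hx]
    split_ifs <;> norm_num
  have h6 : B (∑ i ∈ range k, x i • δ i) (∑ i ∈ range k, x i • δ i) ≠ 0 := by
    intro h7
    have h8 := h.indep x h7 0 hk
    rw [hx] at h8
    split_ifs at h8 <;> omega
  have h7 := hpos (∑ i ∈ range k, x i • δ i)
  have h8 : 0 < B (∑ i ∈ range k, x i • δ i) (∑ i ∈ range k, x i • δ i) := lt_of_le_of_ne h7 (Ne.symm h6)
  have h9 : ((childless k par).card : ℤ) ≤ 3 := by
    rw [h1] at h8
    linarith
  exact_mod_cast h9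

/-- A vector in the kernel of the Gram matrix over a field which vanishes on the childless vertices
is zero. -/
theorem IsTree.kernel {F : Type} [Field F] {δ : ℕ → A}
    {par : ℕ → ℕ} (k : ℕ) (h : IsTree B k δ par) (x : ℕ → F)
    (hx : ∀ i < k, ∑ j ∈ range k, x j * (B (δ i) (δ j) : F) = 0)
    (h0 : ∀ i ∈ childless k par, x i = 0) : ∀ i < k, x i = 0 := by
  classical
  have key : ∀ d, ∀ i < k, k - i = d → x i = 0 := by
    intro d
    induction d using Nat.strong_induction_on with
    | _ d ih =>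
      intro v hv hd
      by_cases hc : v ∈ childless k par
      · exact h0 v hc
      · have h1 : ∃ w, w < k ∧ 0 < w ∧ par w = v := by
          by_contra hn
          push Not at hn
          exact hc (Finset.mem_filter.2 ⟨Finset.mem_range.2 hv, fun j hj hj0 => hn j hj hj0⟩)
        obtain ⟨w, hw, hw0, hpw⟩ := h1
        have hvw : v < w := by
          rw [← hpw]
          exact h.par_lt w hw hw0
        have hz : ∀ j < k, v < j → x j = 0 := fun j hj hvj => ih (k - j) (by omega) j hj rfl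
        have h2 := hx w hw
        rw [Finset.sum_eq_single v] at h2
        · rw [h.gram v w hvw hw, if_pos hpw.symm] at h2
          push_cast at h2
          linear_combination -h2
        · intro j hj hne
          have hjk := Finset.mem_range.1 hj
          rcases lt_trichotomy j w with h3 | h3 | h3
          · rw [h.gram j w h3 hw, if_neg (by rw [hpw]; exact hne)]
            simp
          · rw [hz j hjk (by omega), zero_mul]
          · rw [hz j hjk (by omega), zero_mul]
        · intro hn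
          exact absurd (Finset.mem_range.2 hv) hn
  exact fun i hi => key _ i hi rfl

variable (B) in
/-- `a` is dependent on the first `k` vectors, modulo vectors of norm zero. -/
def Dep (k : ℕ) (δ : ℕ → A) (a : A) : Prop := ∃ n : ℤ, n ≠ 0 ∧ ∃ x : ℕ → ℤ,
  B (n • a - ∑ i ∈ range k, x i • δ i) (n • a - ∑ i ∈ range k, x i • δ i) = 0

/-- Vectors of norm zero are in the radical of a positive form. -/
theorem radical (hsymm : ∀ a b, B a b = B b a) (hpos : ∀ a, 0 ≤ B a a) {z : A} (hz : B z z = 0)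
    (a : A) : B z a = 0 := by
  have h : ∀ n : ℤ, 0 ≤ 2 * n * B z a + B a a := by
    intro n
    have h1 := hpos (n • z + a)
    simp only [map_add, LinearMap.add_apply, map_smul, LinearMap.smul_apply, smul_eq_mul, hz] at h1
    rw [hsymm a z] at h1
    linarith
  by_contra hne
  have h1 := h (-(B a a + 1) * B z a)
  have h2 : 0 < (B z a) ^ 2 := by positivity
  have h3 := hpos a
  nlinarith

/-- The empty tree. -/
theorem IsTree.empty (δ : ℕ → A) (par : ℕ → ℕ) : IsTree B 0 δ par where
  norm _ hi := absurd hi (Nat.not_lt_zero _)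
  par_lt _ hj := absurd hj (Nat.not_lt_zero _)
  gram _ _ _ hj := absurd hj (Nat.not_lt_zero _)
  indep _ _ _ hi := absurd hi (Nat.not_lt_zero _)

/-- the sum of the vertices of a tree has norm two -/
theorem IsTree.norm_one (hsymm : ∀ a b, B a b = B b a) {k : ℕ} {δ : ℕ → A} {par : ℕ → ℕ}
    (h : IsTree B k δ par) (hk : 0 < k) :
    B (∑ i ∈ range k, (1 : ℤ) • δ i) (∑ i ∈ range k, (1 : ℤ) • δ i) = 2 := by
  rw [h.norm_sum hsymm (fun _ => 1)]
  have h1 : ∀ i ∈ range k, (if 0 < i then (2 * 1 * 1 : ℤ) else 0) = 2 - if i = 0 then 2 else 0 := by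
    intro i _
    rcases Nat.eq_zero_or_pos i with h0 | h0
    · rw [h0]
      simp
    · rw [if_pos h0, if_neg h0.ne']
      ring
  rw [Finset.sum_congr rfl h1, Finset.sum_sub_distrib, Finset.sum_ite_eq' (range k) 0,
    if_pos (Finset.mem_range.2 hk)]
  simp

/-- a vector which pairs to the same nonzero number with all vertices -/
theorem IsTree.height {k : ℕ} {δ : ℕ → A} {par : ℕ → ℕ} (h : IsTree B k δ par) :
    ∃ (y : A) (d : ℤ), 0 < d ∧ (∃ x : ℕ → ℤ, y = ∑ i ∈ range k, x i • δ i) ∧
      ∀ i < k, B (δ i) y = d := by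
  classical
  let G : Matrix (Fin k) (Fin k) ℤ := Matrix.of fun i j => B (δ i) (δ j)
  have hG : G.det ≠ 0 := by
    intro h0
    obtain ⟨x, hx0, hx⟩ := Matrix.exists_mulVec_eq_zero_iff.2 h0
    apply hx0
    let x' : ℕ → ℤ := fun i => if hi : i < k then x ⟨i, hi⟩ else 0
    have hx' : ∀ i : Fin k, x' i = x i := by
      intro i
      simp only [x', i.2, dif_pos]
    have h1 : ∀ i : Fin k, B (δ i) (∑ j ∈ range k, x' j • δ j) = 0 := by
      intro i
      have h2 : G.mulVec x i = 0 := congrFun hx i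
      rw [map_sum, Finset.sum_range]
      refine Eq.trans ?_ h2
      simp only [Matrix.mulVec, dotProduct, G, Matrix.of_apply]
      refine Finset.sum_congr rfl fun j _ => ?_
      rw [map_smul, smul_eq_mul, hx', mul_comm]
    have h3 : B (∑ j ∈ range k, x' j • δ j) (∑ j ∈ range k, x' j • δ j) = 0 := by
      have e : ∀ y, B (∑ j ∈ range k, x' j • δ j) y = ∑ j ∈ range k, x' j * B (δ j) y := by
        intro y
        rw [map_sum, LinearMap.sum_apply]
        refine Finset.sum_congr rfl fun j _ => ?_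
        rw [map_smul, LinearMap.smul_apply, smul_eq_mul]
      rw [e, Finset.sum_range]
      refine Finset.sum_eq_zero fun j _ => ?_
      rw [h1 j, mul_zero]
    funext i
    have h4 := h.indep x' h3 i i.2
    rw [hx'] at h4
    exact h4
  -- the adjugate
  have h1 : ∀ i : Fin k, ∑ j : Fin k, G i j * (∑ l : Fin k, G.adjugate j l) = G.det := by
    intro i
    have h2 : ∀ l : Fin k, ∑ j : Fin k, G i j * G.adjugate j l = if i = l then G.det else 0 := by
      intro l
      have h3 := congrFun (congrFun (Matrix.mul_adjugate G) i) l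
      rw [Matrix.mul_apply] at h3
      rw [h3, Matrix.smul_apply, Matrix.one_apply, smul_eq_mul]
      split_ifs <;> simp
    simp_rw [Finset.mul_sum]
    rw [Finset.sum_comm, Finset.sum_congr rfl fun l _ => h2 l, Finset.sum_ite_eq]
    simp
  let c : ℤ := if 0 < G.det then 1 else -1
  have hc : 0 < c * G.det := by
    simp only [c]
    split_ifs with h2
    · linarith
    · have : G.det < 0 := lt_of_le_of_ne (not_lt.1 h2) hG
      linarith
  let x' : ℕ → ℤ := fun i => if hi : i < k then c * ∑ l : Fin k, G.adjugate ⟨i, hi⟩ l else 0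
  refine ⟨∑ i ∈ range k, x' i • δ i, c * G.det, hc, ⟨x', rfl⟩, ?_⟩
  intro i hi
  rw [map_sum, Finset.sum_range, ← h1 ⟨i, hi⟩, Finset.mul_sum]
  refine Finset.sum_congr rfl fun j _ => ?_
  have h2 : x' j = c * ∑ l : Fin k, G.adjugate j l := by
    simp only [x', j.2, dif_pos]
  rw [map_smul, smul_eq_mul, h2]
  simp only [G, Matrix.of_apply]
  ring

theorem sq_norm_add (hsymm : ∀ a b, B a b = B b a) (a b : A) :
    B (a + b) (a + b) = B a a + 2 * B a b + B b b := by
  simp only [map_add, LinearMap.add_apply]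
  rw [hsymm b a]
  ring

theorem sq_norm_sub (hsymm : ∀ a b, B a b = B b a) (a b : A) :
    B (a - b) (a - b) = B a a - 2 * B a b + B b b := by
  simp only [map_sub, LinearMap.sub_apply]
  rw [hsymm b a]
  ring

/-- A root which is not dependent on the tree, and not orthogonal to it, extends the tree. -/
theorem IsTree.extend_aux (hsymm : ∀ a b, B a b = B b a) (hpos : ∀ a, 0 ≤ B a a) {k : ℕ}
    (hk : 0 < k) {δ : ℕ → A} {par : ℕ → ℕ} (h : IsTree B k δ par) (t : A) (ht : B t t = 2)
    (hdep : ¬ Dep B k δ t) (hort : ∃ i < k, B t (δ i) ≠ 0) :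
    ∃ δ' par', IsTree B (k + 1) δ' par' := by
  classical
  obtain ⟨y, d, hd, -, hy⟩ := h.height
  -- all combinations are nonzero
  have hND : ∀ (m x : ℕ → ℤ) (n : ℤ), n ≠ 0 →
      B (n • (t + ∑ i ∈ range k, m i • δ i) + ∑ i ∈ range k, x i • δ i)
        (n • (t + ∑ i ∈ range k, m i • δ i) + ∑ i ∈ range k, x i • δ i) ≠ 0 := by
    intro m x n hn h0
    apply hdep
    refine ⟨n, hn, fun i => -(n * m i + x i), ?_⟩
    have e : n • t - ∑ i ∈ range k, (-(n * m i + x i)) • δ i =
        n • (t + ∑ i ∈ range k, m i • δ i) + ∑ i ∈ range k, x i • δ i := by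
      rw [smul_add, Finset.smul_sum, add_assoc, ← Finset.sum_add_distrib, sub_eq_add_neg,
        ← Finset.sum_neg_distrib]
      congr 1
      refine Finset.sum_congr rfl fun i _ => ?_
      rw [neg_smul, neg_neg, add_smul, mul_smul]
    rw [e]
    exact h0
  -- the minimal vector
  let Pr : ℤ → Prop := fun z => ∃ m : ℕ → ℤ, B (t + ∑ i ∈ range k, m i • δ i)
    (t + ∑ i ∈ range k, m i • δ i) = 2 ∧ B (t + ∑ i ∈ range k, m i • δ i) y = z
  have hbdd : ∃ b : ℤ, ∀ z, Pr z → b ≤ z := by
    refine ⟨-(2 * B y y), ?_⟩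
    rintro z ⟨m, hm1, hm2⟩
    set a := t + ∑ i ∈ range k, m i • δ i with ha
    have h1 := hpos ((2 : ℤ) • y - z • a)
    rw [sq_norm_sub hsymm] at h1
    simp only [map_smul, LinearMap.smul_apply, smul_eq_mul] at h1
    rw [hsymm y a, hm1, hm2] at h1
    have h2 := hpos y
    nlinarith
  have hinh : ∃ z, Pr z := ⟨B (t + ∑ i ∈ range k, (0 : ℤ) • δ i) y, fun _ => 0, by
    simpa using ht, rfl⟩
  obtain ⟨z, ⟨m, hm1, hm2⟩, hmin⟩ := Int.exists_least_of_bdd hbdd hinh
  have hND' := hND m
  set a := t + ∑ i ∈ range k, m i • δ i with ha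
  have hsingle : ∀ (c : ℤ) (i : ℕ), i < k → ∑ j ∈ range k, (if j = i then c else 0) • δ j = c • δ i := by
    intro c i hi
    rw [Finset.sum_eq_single i]
    · rw [if_pos rfl]
    · intro j _ hj
      rw [if_neg hj, zero_smul]
    · intro hn
      exact absurd (Finset.mem_range.2 hi) hn
  have hle : ∀ i < k, B a (δ i) ≤ 0 := by
    intro i hi
    by_contra hc
    push Not at hc
    have h1 := sq_norm_sub hsymm a (δ i)
    rw [hm1, h.norm i hi] at h1
    rcases (show B a (δ i) = 1 ∨ 2 ≤ B a (δ i) by omega) with h2 | h2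
    · have h3 : Pr (z - d) := by
        refine ⟨fun j => m j + if j = i then -1 else 0, ?_⟩
        have e : t + ∑ j ∈ range k, (m j + if j = i then -1 else 0) • δ j = a - δ i := by
          have e1 : ∑ j ∈ range k, (m j + if j = i then (-1 : ℤ) else 0) • δ j =
              ∑ j ∈ range k, m j • δ j + ∑ j ∈ range k, (if j = i then (-1 : ℤ) else 0) • δ j := by
            rw [← Finset.sum_add_distrib]
            exact Finset.sum_congr rfl fun j _ => add_smul _ _ _
          rw [e1, hsingle _ i hi, ha]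
          simp only [neg_smul, one_smul]
          abel
        rw [e]
        refine ⟨by rw [h1, h2]; norm_num, ?_⟩
        rw [map_sub, LinearMap.sub_apply, hm2, hy i hi]
      have h4 := hmin _ h3
      omega
    · have h3 := hpos (a - δ i)
      have h4 := hND' (fun j => if j = i then -1 else 0) 1 one_ne_zero
      rw [hsingle _ i hi, one_smul, neg_smul, one_smul, ← sub_eq_add_neg] at h4
      apply h4
      omega
  have hge : ∀ i < k, -1 ≤ B a (δ i) := by
    intro i hi
    by_contra hc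
    push Not at hc
    have h1 := sq_norm_add hsymm a (δ i)
    rw [hm1, h.norm i hi] at h1
    have h3 := hpos (a + δ i)
    have h4 := hND' (fun j => if j = i then 1 else 0) 1 one_ne_zero
    rw [hsingle _ i hi, one_smul, one_smul] at h4
    apply h4
    omega
  have hex : ∃ i < k, B a (δ i) = -1 := by
    by_contra hc
    push Not at hc
    have h0 : ∀ i < k, B a (δ i) = 0 := by
      intro i hi
      have h1 := hle i hi
      have h2 := hge i hi
      have h3 := hc i hi
      omega
    have h1 : B a (∑ i ∈ range k, m i • δ i) = 0 := by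
      rw [map_sum]
      refine Finset.sum_eq_zero fun i hi => ?_
      rw [map_smul, h0 i (Finset.mem_range.1 hi), smul_zero]
    have h2 : t = a - ∑ i ∈ range k, m i • δ i := by
      rw [ha]
      abel
    have h3 := sq_norm_sub hsymm a (∑ i ∈ range k, m i • δ i)
    rw [← h2, ht, hm1, h1] at h3
    have h4 : B (∑ i ∈ range k, m i • δ i) (∑ i ∈ range k, m i • δ i) = 0 := by linarith
    have h5 := h.indep m h4
    have h6 : ∑ i ∈ range k, m i • δ i = 0 :=
      Finset.sum_eq_zero fun i hi => by rw [h5 i (Finset.mem_range.1 hi), zero_smul]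
    rw [h6, sub_zero] at h2
    obtain ⟨i, hi, hti⟩ := hort
    apply hti
    rw [h2]
    exact h0 i hi
  obtain ⟨i₀, hi₀, hai₀⟩ := hex
  have huniq : ∀ i < k, i ≠ i₀ → B a (δ i) = 0 := by
    intro i hi hne
    by_contra hc
    have hci : B a (δ i) = -1 := by
      have h1 := hle i hi
      have h2 := hge i hi
      omega
    have h1 := h.norm_one hsymm hk
    set s := ∑ j ∈ range k, (1 : ℤ) • δ j with hs
    have h2 : B a s ≤ -2 := by
      rw [hs, map_sum]
      have h3 : ∀ j ∈ range k, B a ((1 : ℤ) • δ j) ≤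
          (if j = i₀ then (-1 : ℤ) else 0) + if j = i then (-1 : ℤ) else 0 := by
        intro j hj
        have hjk := Finset.mem_range.1 hj
        rw [one_smul]
        by_cases h4 : j = i₀
        · have h5 : j ≠ i := fun h6 => hne (h6.symm.trans h4)
          rw [if_pos h4, if_neg h5, h4, hai₀]
          norm_num
        · by_cases h5 : j = i
          · rw [if_neg h4, if_pos h5, h5, hci]
            norm_num
          · rw [if_neg h4, if_neg h5, add_zero]
            exact hle j hjk
      refine (Finset.sum_le_sum h3).trans ?_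
      rw [Finset.sum_add_distrib, Finset.sum_ite_eq' (range k) i₀, Finset.sum_ite_eq' (range k) i,
        if_pos (Finset.mem_range.2 hi₀), if_pos (Finset.mem_range.2 hi)]
      norm_num
    have h3 := sq_norm_add hsymm a s
    rw [hm1, h1] at h3
    have h4 := hpos (a + s)
    have h5 := hND' (fun _ => 1) 1 one_ne_zero
    rw [one_smul, ← hs] at h5
    apply h5
    omega
  refine ⟨fun j => if j < k then δ j else a, fun j => if j < k then par j else i₀, ?_⟩
  refine ⟨?_, ?_, ?_, ?_⟩
  · intro i hi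
    by_cases h1 : i < k
    · simp only [if_pos h1]
      exact h.norm i h1
    · simp only [if_neg h1]
      exact hm1
  · intro j hj hj0
    by_cases h1 : j < k
    · simp only [if_pos h1]
      exact h.par_lt j h1 hj0
    · simp only [if_neg h1]
      omega
  · intro i j hij hj
    by_cases h1 : j < k
    · have h2 : i < k := by omega
      simp only [if_pos h1, if_pos h2]
      exact h.gram i j hij h1
    · have h2 : i < k := by omega
      simp only [if_neg h1, if_pos h2]
      by_cases h3 : i = i₀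
      · rw [if_pos h3, h3]
        exact hai₀
      · rw [if_neg h3]
        exact huniq i h2 h3
  · intro x hx
    rw [Finset.sum_range_succ] at hx
    have e1 : ∑ i ∈ range k, x i • (if i < k then δ i else a) = ∑ i ∈ range k, x i • δ i :=
      Finset.sum_congr rfl fun i hi => by rw [if_pos (Finset.mem_range.1 hi)]
    rw [e1, if_neg (lt_irrefl k)] at hx
    have h1 : x k = 0 := by
      by_contra h2
      apply hND' x (x k) h2
      rw [add_comm (x k • a)]
      exact hx
    rw [h1, zero_smul, add_zero] at hx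
    intro i hi
    rcases (show i < k ∨ i = k by omega) with h2 | h2
    · exact h.indep x hx i h2
    · rw [h2]
      exact h1

/-- A connected set of roots which span is dependent on some tree. -/
theorem exists_tree (hsymm : ∀ a b, B a b = B b a) (hpos : ∀ a, 0 ≤ B a a) (T : Set A)
    (hT : ∀ t ∈ T, B t t = 2) (hspan : ∀ a, (∀ t ∈ T, B t a = 0) → B a a = 0)
    (hirr : ∀ U ⊆ T, (∀ t ∈ U, ∀ t' ∈ T, t' ∉ U → B t t' = 0) → U = ∅ ∨ U = T)
    (e : ℕ) (hbound : ∀ k (δ : ℕ → A) par, IsTree B k δ par → k ≤ e) :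
    ∃ k δ par, IsTree B k δ par ∧ ∀ t ∈ T, Dep B k δ t := by
  classical
  have step : ∀ k (δ : ℕ → A) par, IsTree B k δ par → (∀ t ∈ T, Dep B k δ t) ∨
      ∃ δ' par', IsTree B (k + 1) δ' par' := by
    intro k δ par h
    by_cases hall : ∀ t ∈ T, Dep B k δ t
    · exact Or.inl hall
    right
    push Not at hall
    obtain ⟨t₀, ht₀, hd₀⟩ := hall
    rcases Nat.eq_zero_or_pos k with hk | hk
    · subst hk
      refine ⟨fun _ => t₀, fun _ => 0, ⟨fun _ _ => hT t₀ ht₀, fun j hj hj0 => by omega,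
        fun i j hij hj => by omega, ?_⟩⟩
      intro x hx i hi
      have hi0 : i = 0 := by omega
      subst hi0
      simp only [zero_add, Finset.range_one, Finset.sum_singleton, map_smul, LinearMap.smul_apply,
        smul_eq_mul, hT t₀ ht₀] at hx
      have : x 0 * x 0 = 0 := by linarith
      exact mul_self_eq_zero.1 this
    · have hex : ∃ t ∈ T, ¬ Dep B k δ t ∧ ∃ i < k, B t (δ i) ≠ 0 := by
        by_contra hc
        push Not at hc
        have h1 := hirr {t ∈ T | Dep B k δ t} (fun t ht => ht.1) (by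
          rintro t ⟨ht, n, hn, x, hx⟩ t' ht' hnt'
          have hd' : ¬ Dep B k δ t' := fun hd => hnt' ⟨ht', hd⟩
          have h2 := hc t' ht' hd'
          have h3 := radical hsymm hpos hx t'
          rw [map_sub, map_smul, LinearMap.sub_apply, LinearMap.smul_apply, map_sum,
            LinearMap.sum_apply] at h3
          have h4 : ∑ i ∈ range k, (B (x i • δ i)) t' = 0 := by
            refine Finset.sum_eq_zero fun i hi => ?_
            rw [map_smul, LinearMap.smul_apply, hsymm, h2 i (Finset.mem_range.1 hi), smul_zero]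
          rw [h4, sub_zero, smul_eq_mul] at h3
          exact (mul_eq_zero.1 h3).resolve_left hn)
        rcases h1 with h1 | h1
        · have h2 : B (δ 0) (δ 0) = 0 := by
            apply hspan
            intro t ht
            refine hc t ht ?_ 0 hk
            intro hd
            have : t ∈ ({t ∈ T | Dep B k δ t} : Set A) := ⟨ht, hd⟩
            rw [h1] at this
            exact this
          rw [h.norm 0 hk] at h2
          norm_num at h2
        · have : t₀ ∈ ({t ∈ T | Dep B k δ t} : Set A) := by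
            rw [h1]
            exact ht₀
          exact hd₀ this.2
      obtain ⟨t, ht, hd, hort⟩ := hex
      exact h.extend_aux hsymm hpos hk t (hT t ht) hd hort
  have key : ∀ m k (δ : ℕ → A) par, e + 1 - k = m → IsTree B k δ par →
      ∃ k δ par, IsTree B k δ par ∧ ∀ t ∈ T, Dep B k δ t := by
    intro m
    induction m with
    | zero =>
      intro k δ par hm h
      have := hbound k δ par h
      omega
    | succ m ih =>
      intro k δ par hm h
      rcases step k δ par h with h1 | ⟨δ', par', h1⟩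
      · exact ⟨k, δ, par, h, h1⟩
      · exact ih (k + 1) δ' par' (by omega) h1
  exact key _ 0 (fun _ => 0) (fun _ => 0) rfl (IsTree.empty _ _)

end Tree

/-! ### Unitriangular forms -/

/-- The bilinear form `∑ a_i b_i + ∑_(j < i) C_(j i) a_j b_i`. -/
def uform (R : Type) [CommRing R] {e : ℕ} (C : Fin e → Fin e → ℤ) :
    (Fin e → R) →ₗ[R] (Fin e → R) →ₗ[R] R :=
  LinearMap.mk₂ R (fun a b => (∑ i, a i * b i) + ∑ j : Fin e, ∑ i : Fin e,
      if j < i then (C j i : R) * (a j * b i) else 0)
    (fun a a' b => by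
      simp only [Pi.add_apply, add_mul, Finset.sum_add_distrib]
      have h : ∀ j i : Fin e, (if j < i then (C j i : R) * (a j * b i + a' j * b i) else 0) =
          (if j < i then (C j i : R) * (a j * b i) else 0) +
            if j < i then (C j i : R) * (a' j * b i) else 0 := by
        intro j i
        split_ifs <;> ring
      simp only [h, Finset.sum_add_distrib]
      ring)
    (fun t a b => by
      simp only [Pi.smul_apply, smul_eq_mul, mul_add, Finset.mul_sum]
      congr 1
      · exact Finset.sum_congr rfl fun i _ => by ring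
      · refine Finset.sum_congr rfl fun j _ => Finset.sum_congr rfl fun i _ => ?_
        split_ifs <;> ring)
    (fun a b b' => by
      simp only [Pi.add_apply, mul_add, Finset.sum_add_distrib]
      have h : ∀ j i : Fin e, (if j < i then (C j i : R) * (a j * b i) + (C j i : R) * (a j * b' i)
          else 0) = (if j < i then (C j i : R) * (a j * b i) else 0) +
            if j < i then (C j i : R) * (a j * b' i) else 0 := by
        intro j i
        split_ifs <;> ring
      simp only [h, Finset.sum_add_distrib]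
      ring)
    (fun t a b => by
      simp only [Pi.smul_apply, smul_eq_mul, mul_add, Finset.mul_sum]
      congr 1
      · exact Finset.sum_congr rfl fun i _ => by ring
      · refine Finset.sum_congr rfl fun j _ => Finset.sum_congr rfl fun i _ => ?_
        split_ifs <;> ring)

theorem uform_apply (R : Type) [CommRing R] {e : ℕ} (C : Fin e → Fin e → ℤ) (a b : Fin e → R) :
    uform R C a b = (∑ i, a i * b i) + ∑ j : Fin e, ∑ i : Fin e,
      if j < i then (C j i : R) * (a j * b i) else 0 := rfl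

theorem uform_cast (R : Type) [CommRing R] {e : ℕ} (C : Fin e → Fin e → ℤ) (a b : Fin e → ℤ) :
    uform R C (fun i => (a i : R)) (fun i => (b i : R)) = ((uform ℤ C a b : ℤ) : R) := by
  rw [uform_apply, uform_apply]
  push_cast
  rfl

theorem uform_injective (R : Type) [CommRing R] {e : ℕ} (C : Fin e → Fin e → ℤ) :
    Function.Injective (uform R C) := by
  classical
  rw [← LinearMap.ker_eq_bot, LinearMap.ker_eq_bot']
  intro a ha
  have key : ∀ i : ℕ, ∀ hi : i < e, a ⟨i, hi⟩ = 0 := by
    intro i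
    induction i using Nat.strong_induction_on with
    | _ i ih =>
      intro hi
      have h1 : uform R C a (Pi.single ⟨i, hi⟩ 1) = 0 := by
        rw [ha]
        rfl
      have h2 : uform R C a (Pi.single ⟨i, hi⟩ 1) = a ⟨i, hi⟩ := by
        rw [uform_apply, Finset.sum_eq_single (⟨i, hi⟩ : Fin e)]
        · rw [Pi.single_eq_same, mul_one]
          convert add_zero _
          refine Finset.sum_eq_zero fun j _ => Finset.sum_eq_zero fun l _ => ?_
          split_ifs with hjl
          · by_cases hl : l = ⟨i, hi⟩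
            · subst hl
              have : (j : ℕ) < i := hjl
              have h3 := ih j this j.2
              rw [show (⟨(j : ℕ), j.2⟩ : Fin e) = j from rfl] at h3
              rw [h3]
              ring
            · rw [Pi.single_eq_of_ne hl]
              ring
          · rfl
        · intro l _ hl
          rw [Pi.single_eq_of_ne hl, mul_zero]
        · intro h
          exact absurd (Finset.mem_univ _) h
      rw [← h2, h1]
  funext i
  exact key i i.2

/-- Orthogonal subspaces for a unitriangular form. -/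
theorem uform_rank (F : Type) [Field F] {e : ℕ} (C : Fin e → Fin e → ℤ)
    (W₁ W₂ : Submodule F (Fin e → F)) (h : ∀ a ∈ W₁, ∀ b ∈ W₂, uform F C a b = 0) :
    finrank F W₁ + finrank F W₂ ≤ e := by
  have hle : W₁.map (uform F C) ≤ W₂.dualAnnihilator := by
    rintro _ ⟨a, ha, rfl⟩
    rw [Submodule.mem_dualAnnihilator]
    intro b hb
    exact h a ha b hb
  have h1 : finrank F (W₁.map (uform F C)) = finrank F W₁ :=
    (Submodule.equivMapOfInjective (uform F C) (uform_injective F C) W₁).finrank_eq.symm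
  have h2 : finrank F (W₁.map (uform F C)) ≤ finrank F W₂.dualAnnihilator :=
    Submodule.finrank_mono hle
  have h3 : finrank F W₂ + finrank F W₂.dualAnnihilator = finrank F (Fin e → F) :=
    Subspace.finrank_add_finrank_dualAnnihilator_eq W₂
  rw [Module.finrank_fin_fun] at h3
  omega

/-! ### Transvections -/

namespace Monodromy

variable (M : Monodromy)

theorem E_skew (y z : M.H) : M.E y z = -M.E z y := by
  have h := M.alt (y + z)
  simp only [map_add, LinearMap.add_apply, M.alt, zero_add, add_zero] at h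
  linarith

theorem φ_self (i : ℕ) (hi : i < M.e) : M.φ i (M.v i) = 0 := by
  have h := M.vanishing i hi (M.v i)
  rw [M.alt] at h
  have hg : (M.g i : ℤ) ≠ 0 := by exact_mod_cast (M.g_pos i).ne'
  rcases mul_eq_zero.1 h.symm with h | h
  · exact absurd h hg
  · exact h

/-- the product of the first transvections -/
def P (i : ℕ) : M.H ≃ₗ[ℤ] M.H := ((List.range i).map M.τ).prod

theorem P_zero : M.P 0 = 1 := rfl

theorem P_succ (i : ℕ) : M.P (i + 1) = M.P i * M.τ i := by
  unfold P
  rw [List.range_succ, List.map_append, List.prod_append]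
  simp

theorem u_eq (i : ℕ) : M.u i = M.P i (M.v i) := rfl

theorem inv_P (i : ℕ) (y : M.H) : M.P i ((M.P i)⁻¹ y) = y := by
  rw [← LinearEquiv.mul_apply, mul_inv_cancel]
  rfl

theorem inv_P' (i : ℕ) (y : M.H) : (M.P i)⁻¹ (M.P i y) = y := by
  rw [← LinearEquiv.mul_apply, inv_mul_cancel]
  rfl

theorem back_succ (i : ℕ) (hi : i < M.e) (y : M.H) :
    (M.P (i + 1))⁻¹ y = (M.P i)⁻¹ y - M.φ i ((M.P i)⁻¹ y) • M.v i := by
  rw [P_succ, mul_inv_rev]
  show (M.τ i)⁻¹ ((M.P i)⁻¹ y) = _
  set z := (M.P i)⁻¹ y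
  have h : M.τ i (z - M.φ i z • M.v i) = z := by
    rw [M.picard i hi, map_sub, map_smul, M.φ_self i hi, smul_zero, sub_zero, sub_add_cancel]
  conv_lhs => rw [← h]
  rw [← LinearEquiv.mul_apply, inv_mul_cancel]
  rfl

/-- `E` is invariant under the products of transvections. -/
theorem E_P (i : ℕ) (hi : i ≤ M.e) (y z : M.H) : M.E (M.P i y) (M.P i z) = M.E y z := by
  induction i generalizing y z with
  | zero => rfl
  | succ i ih =>
    rw [P_succ]
    show M.E (M.P i (M.τ i y)) (M.P i (M.τ i z)) = _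
    rw [ih (by omega), M.picard i (by omega), M.picard i (by omega)]
    simp only [map_add, map_smul, LinearMap.add_apply, LinearMap.smul_apply, smul_eq_mul, M.alt]
    rw [M.E_skew y (M.v i), M.vanishing i (by omega) y, M.vanishing i (by omega) z]
    ring

/-- the transported functional `E(u_i, ·) / g_i` -/
def ψ (i : ℕ) : M.H →ₗ[ℤ] ℤ := M.φ i ∘ₗ (((M.P i)⁻¹ : M.H ≃ₗ[ℤ] M.H) : M.H →ₗ[ℤ] M.H)

theorem ψ_apply (i : ℕ) (y : M.H) : M.ψ i y = M.φ i ((M.P i)⁻¹ y) := rfl

theorem E_u (i : ℕ) (hi : i < M.e) (y : M.H) : M.E (M.u i) y = M.g i * M.ψ i y := by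
  rw [ψ_apply, ← M.vanishing i hi, u_eq]
  conv_lhs => rw [← M.inv_P i y]
  exact M.E_P i hi.le _ _

/-- `(P_i)⁻¹ y - (P_l)⁻¹ y` is a combination of the vanishing cycles in between. -/
theorem back_mem (i l : ℕ) (hil : i ≤ l) (hl : l ≤ M.e) (y : M.H) :
    (M.P i)⁻¹ y - (M.P l)⁻¹ y ∈ Submodule.span ℤ (M.v '' Set.Ico i l) := by
  induction l, hil using Nat.le_induction with
  | base =>
    rw [sub_self]
    exact Submodule.zero_mem _
  | succ l hil ih =>
    rw [back_succ M l (by omega)]
    have h1 : (M.P i)⁻¹ y - ((M.P l)⁻¹ y - M.φ l ((M.P l)⁻¹ y) • M.v l) =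
        ((M.P i)⁻¹ y - (M.P l)⁻¹ y) + M.φ l ((M.P l)⁻¹ y) • M.v l := by abel
    rw [h1]
    refine Submodule.add_mem _ ?_ (Submodule.smul_mem _ _ (Submodule.subset_span
      ⟨l, ⟨hil, Nat.lt_succ_self l⟩, rfl⟩))
    exact Submodule.span_mono (Set.image_mono (Set.Ico_subset_Ico_right (Nat.le_succ l)))
      (ih (by omega))

/-- the difference of a functional along the transvections -/
theorem back_sum (l : M.H →ₗ[ℤ] ℤ) (a : Fin M.e → ℤ) (i t : ℕ) (hit : i ≤ t) (ht : t ≤ M.e)
    (ha : ∀ s : Fin M.e, i ≤ s → (s : ℕ) < t → a s = l (M.v s)) (y : M.H) :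
    l ((M.P i)⁻¹ y) - l ((M.P t)⁻¹ y) =
      ∑ s : Fin M.e, if i ≤ (s : ℕ) ∧ (s : ℕ) < t then a s * M.ψ s y else 0 := by
  induction t, hit using Nat.le_induction with
  | base =>
    rw [sub_self]
    symm
    refine Finset.sum_eq_zero fun s _ => ?_
    rw [if_neg]
    omega
  | succ t hit ih =>
    have h1 := ih (by omega) (fun s hs hs' => ha s hs (by omega))
    rw [back_succ M t (by omega), map_sub, map_smul, smul_eq_mul]
    have h2 : ∀ s : Fin M.e, (if i ≤ (s : ℕ) ∧ (s : ℕ) < t + 1 then a s * M.ψ s y else 0) =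
        (if i ≤ (s : ℕ) ∧ (s : ℕ) < t then a s * M.ψ s y else 0) +
          if s = ⟨t, by omega⟩ then a s * M.ψ s y else 0 := by
      intro s
      by_cases h3 : s = ⟨t, by omega⟩
      · have h4 : (s : ℕ) = t := by rw [h3]
        have e1 : ¬ (i ≤ (s : ℕ) ∧ (s : ℕ) < t) := by omega
        have e2 : i ≤ (s : ℕ) ∧ (s : ℕ) < t + 1 := by omega
        rw [if_pos e2, if_neg e1, if_pos h3, zero_add]
      · have h4 : (s : ℕ) ≠ t := fun h => h3 (Fin.ext h)
        rw [if_neg h3, add_zero]
        by_cases h5 : i ≤ (s : ℕ) ∧ (s : ℕ) < t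
        · rw [if_pos h5, if_pos (by omega)]
        · rw [if_neg h5, if_neg (by omega)]
    rw [Finset.sum_congr rfl fun s _ => h2 s, Finset.sum_add_distrib, ← h1, Finset.sum_ite_eq']
    simp only [Finset.mem_univ, if_true]
    have h6 := ha ⟨t, by omega⟩ hit (Nat.lt_succ_self t)
    rw [h6, ψ_apply]
    ring

theorem n_le (j : ℕ) (hj : j ≤ M.k) : M.n j ≤ M.e := by
  rw [← M.n_last]
  exact M.n_mono hj

/-- product of the first meridians -/
def Γ (j : ℕ) : M.Q := ((List.range j).map M.γ).prod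

theorem Γ_succ (j : ℕ) : M.Γ (j + 1) = M.Γ j * M.γ j := by
  unfold Γ
  rw [List.range_succ, List.map_append, List.prod_append]
  simp

theorem ρ_Γ (j : ℕ) (hj : j ≤ M.k) : M.ρ (M.Γ j) = M.P (M.n j) := M.meridian j hj

theorem ρ_Γ_inv (j : ℕ) (hj : j ≤ M.k) : M.ρ (M.Γ j)⁻¹ = (M.P (M.n j))⁻¹ := by
  rw [map_inv, ρ_Γ M j hj]

theorem ρ_γ_inv (j : ℕ) (hj : j < M.k) (y : M.H) :
    M.ρ (M.γ j)⁻¹ ((M.P (M.n j))⁻¹ y) = (M.P (M.n (j + 1)))⁻¹ y := by
  rw [← ρ_Γ_inv M j hj.le, ← ρ_Γ_inv M (j + 1) hj, Γ_succ, mul_inv_rev, map_mul]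
  rfl

theorem ρ_γ_mem (j : ℕ) (hj : j < M.k) (y : M.H) :
    y - M.ρ (M.γ j)⁻¹ y ∈ Submodule.span ℤ (M.v '' Set.Ico (M.n j) (M.n (j + 1))) := by
  have h := M.back_mem (M.n j) (M.n (j + 1)) (M.n_mono (Nat.le_succ j)) (M.n_le (j + 1) hj)
    (M.P (M.n j) y)
  rw [← ρ_γ_inv M j hj, inv_P'] at h
  exact h

theorem Par_sat (n : ℤ) (hn : n ≠ 0) (a : Fin M.e → ℤ) (h : M.IsPar (n • a)) : M.IsPar a := by
  obtain ⟨c, h1, h2, h3⟩ := h
  have hone : ∀ y, c 1 y = 0 := by
    intro y
    have h := h2 1 1 y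
    rw [mul_one, inv_one, map_one] at h
    have h' : c 1 y = c 1 y + c 1 y := h
    linarith
  have hblock : ∀ j < M.k, ∀ l : M.H →ₗ[ℤ] ℤ,
      (∀ i : Fin M.e, M.n j ≤ i → (i : ℕ) < M.n (j + 1) → (n • a) i = l (M.v i)) →
      ∀ y ∈ Submodule.span ℤ (M.v '' Set.Ico (M.n j) (M.n (j + 1))), n ∣ l y := by
    intro j hj l hl y hy
    induction hy using Submodule.span_induction with
    | mem y hy =>
      obtain ⟨i, ⟨hi1, hi2⟩, rfl⟩ := hy
      have hie : i < M.e := lt_of_lt_of_le hi2 (M.n_le (j + 1) hj)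
      rw [← hl ⟨i, hie⟩ hi1 hi2]
      exact ⟨a ⟨i, hie⟩, rfl⟩
    | zero =>
      rw [map_zero]
      exact dvd_zero _
    | add y z _ _ hy hz =>
      rw [map_add]
      exact dvd_add hy hz
    | smul t y _ hy =>
      rw [map_smul, smul_eq_mul]
      exact Dvd.dvd.mul_left hy _
  have hdiv : ∀ q : M.Q, ∀ y, n ∣ c q y := by
    intro q
    have hq : q ∈ Subgroup.closure (M.γ '' Set.Iio M.k) := by
      rw [M.gen]
      exact Subgroup.mem_top q
    induction hq using Subgroup.closure_induction with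
    | mem q hq =>
      obtain ⟨j, hj, rfl⟩ := hq
      have hj' : j < M.k := hj
      intro y
      obtain ⟨l, hl1, hl2⟩ := h3 j hj'
      rw [hl1, ← map_sub]
      exact hblock j hj' l hl2 _ (M.ρ_γ_mem j hj' y)
    | one =>
      intro y
      rw [hone]
      exact dvd_zero _
    | mul g h _ _ hg hh =>
      intro y
      rw [h2]
      exact dvd_add (hg y) (hh _)
    | inv g _ hg =>
      intro y
      have h := h2 g⁻¹ g y
      rw [inv_mul_cancel, hone, inv_inv] at h
      have h' : c g⁻¹ y = -c g (M.ρ g y) := by linarith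
      rw [h']
      exact (hg _).neg_right
  choose d hd using hdiv
  refine ⟨d, ?_, ?_, ?_⟩
  · intro g y z
    apply mul_left_cancel₀ hn
    rw [mul_add, ← hd, ← hd, ← hd, h1]
  · intro g h y
    apply mul_left_cancel₀ hn
    rw [mul_add, ← hd, ← hd, ← hd, h2]
  · intro j hj
    obtain ⟨l, hl1, hl2⟩ := h3 j hj
    set U := Submodule.span ℤ (M.v '' Set.Ico (M.n j) (M.n (j + 1))) with hU
    have hdU : ∀ y : U, ∃ z : ℤ, l y = n * z := fun y => hblock j hj l hl2 y y.2
    choose f hf using hdU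
    let lU : U →ₗ[ℤ] ℤ :=
      { toFun := f
        map_add' := by
          intro y z
          apply mul_left_cancel₀ hn
          rw [mul_add, ← hf, ← hf, ← hf, Submodule.coe_add, map_add]
        map_smul' := by
          intro t y
          apply mul_left_cancel₀ hn
          rw [← hf, Submodule.coe_smul, map_smul, hf, RingHom.id_apply, smul_eq_mul, smul_eq_mul]
          ring }
    have hlU : ∀ y : U, l y = n * lU y := hf
    have htf : Module.IsTorsionFree ℤ (M.H ⧸ U) := by
      rw [Module.isTorsionFree_iff_smul_eq_zero]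
      intro t z htz
      rcases eq_or_ne t 0 with h0 | h0
      · exact Or.inl h0
      · right
        obtain ⟨y, rfl⟩ := U.mkQ_surjective z
        rw [← map_smul, ← LinearMap.mem_ker, Submodule.ker_mkQ] at htz
        rw [← LinearMap.mem_ker, Submodule.ker_mkQ]
        exact M.saturated j hj t y h0 htz
    have hfree : Module.Free ℤ (M.H ⧸ U) := Module.free_of_finite_type_torsion_free'
    obtain ⟨s, hs⟩ := Module.projective_lifting_property U.mkQ LinearMap.id U.mkQ_surjective
    have hs' : ∀ z, U.mkQ (s z) = z := fun z => LinearMap.congr_fun hs z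
    have hker : ∀ z, U.mkQ z = 0 → z ∈ U := fun z hz => by
      rwa [← LinearMap.mem_ker, Submodule.ker_mkQ] at hz
    let r : M.H →ₗ[ℤ] U := (LinearMap.id - s ∘ₗ U.mkQ).codRestrict U (by
      intro y
      apply hker
      simp only [LinearMap.sub_apply, LinearMap.id_apply, LinearMap.comp_apply, map_sub, hs', sub_self])
    have hr : ∀ y (hy : y ∈ U), r y = ⟨y, hy⟩ := by
      intro y hy
      apply Subtype.ext
      show y - s (U.mkQ y) = y
      have h0 : U.mkQ y = 0 := by rwa [← LinearMap.mem_ker, Submodule.ker_mkQ]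
      rw [h0, map_zero, sub_zero]
    refine ⟨lU ∘ₗ r, ?_, ?_⟩
    · intro y
      apply mul_left_cancel₀ hn
      rw [← hd, hl1, ← map_sub, ← map_sub]
      have hm := M.ρ_γ_mem j hj y
      rw [LinearMap.comp_apply, hr _ hm, ← hlU]
    · intro i hi1 hi2
      have hm : M.v i ∈ U := Submodule.subset_span ⟨i, ⟨hi1, hi2⟩, rfl⟩
      apply mul_left_cancel₀ hn
      rw [LinearMap.comp_apply, hr _ hm, ← hlU]
      exact hl2 i hi1 hi2

/-- the closing relation of a parabolic cocycle -/
theorem closing (a : Fin M.e → ℤ) (ha : M.IsPar a) (y : M.H) : ∑ i : Fin M.e, a i * M.ψ i y = 0 := by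
  obtain ⟨c, h1, h2, h3⟩ := ha
  have hone : ∀ y, c 1 y = 0 := by
    intro y
    have h := h2 1 1 y
    rw [mul_one, inv_one, map_one] at h
    have h' : c 1 y = c 1 y + c 1 y := h
    linarith
  have key : ∀ j ≤ M.k, ∀ y, c (M.Γ j) y =
      ∑ i : Fin M.e, if (i : ℕ) < M.n j then a i * M.ψ i y else 0 := by
    intro j
    induction j with
    | zero =>
      intro _ y
      have : M.Γ 0 = 1 := rfl
      rw [this, hone, M.n_zero]
      simp
    | succ j ih =>
      intro hj y
      obtain ⟨l, hl1, hl2⟩ := h3 j hj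
      rw [Γ_succ, h2, ih (by omega), ρ_Γ_inv M j (by omega), hl1, ρ_γ_inv M j hj,
        M.back_sum l a (M.n j) (M.n (j + 1)) (M.n_mono (Nat.le_succ j)) (M.n_le _ hj) hl2,
        ← Finset.sum_add_distrib]
      refine Finset.sum_congr rfl fun i _ => ?_
      have hm := M.n_mono (Nat.le_succ j)
      by_cases h4 : (i : ℕ) < M.n j
      · rw [if_pos h4, if_neg (by omega), if_pos (lt_of_lt_of_le h4 hm), add_zero]
      · rw [if_neg h4, zero_add]
        by_cases h5 : (i : ℕ) < M.n (j + 1)
        · rw [if_pos ⟨not_lt.1 h4, h5⟩, if_pos h5]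
        · rw [if_neg (fun h => h5 h.2), if_neg h5]
  have h4 := key M.k le_rfl y
  have h5 : M.Γ M.k = 1 := M.prod_eq
  rw [h5, hone, M.n_last] at h4
  rw [h4]
  exact Finset.sum_congr rfl fun i _ => by rw [if_pos i.2]

theorem move_mem (i : ℕ) (hi : i ≤ M.e) (y : M.H) :
    M.P i y - y ∈ Submodule.span ℤ (M.u '' Set.Iio i) := by
  induction i generalizing y with
  | zero =>
    show y - y ∈ _
    rw [sub_self]
    exact Submodule.zero_mem _
  | succ i ih =>
    rw [P_succ]
    show M.P i (M.τ i y) - y ∈ _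
    rw [M.picard i (by omega), map_add, map_smul]
    have h1 : M.P i y + M.φ i y • M.P i (M.v i) - y =
        (M.P i y - y) + M.φ i y • M.u i := by
      show _ = (M.P i y - y) + M.φ i y • M.P i (M.v i)
      abel
    rw [h1]
    refine Submodule.add_mem _ ?_ (Submodule.smul_mem _ _ (Submodule.subset_span ⟨i, ?_, rfl⟩))
    · exact Submodule.span_mono (Set.image_mono fun j (hj : j < i) => Nat.lt_succ_of_lt hj)
        (ih (by omega) y)
    · exact Nat.lt_succ_self i

theorem span_u : Submodule.span ℤ (M.u '' Set.Iio M.e) = ⊤ := by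
  rw [← top_le_iff, ← M.span, Submodule.span_le]
  rintro _ ⟨i, hi, rfl⟩
  have hi' : i < M.e := hi
  have h1 := M.move_mem i hi'.le (M.v i)
  have h2 : M.u i ∈ Submodule.span ℤ (M.u '' Set.Iio M.e) := Submodule.subset_span ⟨i, hi, rfl⟩
  have h3 : M.P i (M.v i) - M.v i ∈ Submodule.span ℤ (M.u '' Set.Iio M.e) :=
    Submodule.span_mono (Set.image_mono fun j (hj : j < i) => lt_trans hj hi') h1
  have h4 := Submodule.sub_mem _ h2 h3
  have h5 : M.u i - (M.P i (M.v i) - M.v i) = M.v i := by
    show M.P i (M.v i) - (M.P i (M.v i) - M.v i) = M.v i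
    abel
  rw [h5] at h4
  exact h4

/-- the coefficients `E(u_j, u_i) / g_i` -/
def C (j i : Fin M.e) : ℤ := -M.ψ i (M.u j)

/-- the integral version of the form, `S(g a, b)` -/
theorem S_int (a b : Fin M.e → ℤ) : M.S (fun i => M.g i * a i) b = (uform ℤ M.C a b : ℤ) := by
  have hg : ∀ i : ℕ, (M.g i : ℚ) ≠ 0 := fun i => by exact_mod_cast (M.g_pos i).ne'
  rw [uform_apply]
  unfold S
  push_cast
  congr 1
  · refine Finset.sum_congr rfl fun i _ => ?_
    field_simp [hg i]
  · refine Finset.sum_congr rfl fun j _ => Finset.sum_congr rfl fun i _ => ?_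
    split_ifs with h
    · have h1 : (M.E (M.u j) (M.u i) : ℚ) = M.g i * M.C j i := by
        unfold C
        rw [M.E_skew, M.E_u i i.2]
        push_cast
        ring
      rw [h1]
      field_simp [hg i, hg j]
    · rfl

theorem g_one (d : ℕ) (hd : ∀ i < M.e, M.g i = d) (i : ℕ) (hi : i < M.e) : M.g i = 1 := by
  rw [hd i hi]
  apply M.primitive
  intro y z
  have hy : y ∈ Submodule.span ℤ (M.v '' Set.Iio M.e) := by
    rw [M.span]
    exact Submodule.mem_top
  induction hy using Submodule.span_induction with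
  | mem y hy =>
    obtain ⟨i, hi, rfl⟩ := hy
    have hi' : i < M.e := hi
    rw [M.vanishing i hi', hd i hi']
    exact Dvd.intro _ rfl
  | zero =>
    rw [map_zero, LinearMap.zero_apply]
    exact dvd_zero _
  | add y z _ _ hy hz =>
    rw [map_add, LinearMap.add_apply]
    exact dvd_add hy hz
  | smul t y _ hy =>
    rw [map_smul, LinearMap.smul_apply, smul_eq_mul]
    exact Dvd.dvd.mul_left hy _

theorem deg_eq (d : ℕ) (hd : ∀ i < M.e, M.g i = d) : M.deg = M.e := by
  unfold deg
  rw [Finset.sum_congr rfl fun (i : Fin M.e) _ => by rw [M.g_one d hd i i.2]]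
  simp

end Monodromy

/-! ### Ranks -/

theorem rank_nullity {A B : Type} [AddCommGroup A] [AddCommGroup B] [Module.Finite ℤ A]
    (f : A →ₗ[ℤ] B) :
    finrank ℤ (LinearMap.range f) + finrank ℤ (LinearMap.ker f) = finrank ℤ A := by
  rw [← Submodule.finrank_quotient_add_finrank (LinearMap.ker f),
    LinearEquiv.finrank_eq f.quotKerEquivRange]

/-- The reduction modulo `p` of a saturated sublattice. -/
theorem reduction (e : ℕ) (p : ℕ) (hp : p.Prime) (N : Submodule ℤ (Fin e → ℤ))
    (hsat : ∀ (n : ℤ) (a : Fin e → ℤ), n ≠ 0 → n • a ∈ N → a ∈ N) :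
    ∃ W : Submodule (ZMod p) (Fin e → ZMod p),
      (W = Submodule.span (ZMod p) {w | ∃ a ∈ N, w = fun i => ((a i : ℤ) : ZMod p)}) ∧
      finrank ℤ N ≤ finrank (ZMod p) W := by
  classical
  have : Fact p.Prime := ⟨hp⟩
  refine ⟨_, rfl, ?_⟩
  set n := finrank ℤ N with hn
  let B : Basis (Fin n) ℤ N := Module.finBasisOfFinrankEq ℤ N hn.symm
  let red : (Fin e → ℤ) → (Fin e → ZMod p) := fun a i => ((a i : ℤ) : ZMod p)
  let w : Fin n → (Fin e → ZMod p) := fun l => red (B l : Fin e → ℤ)
  have hli : LinearIndependent (ZMod p) w := by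
    rw [Fintype.linearIndependent_iff]
    intro g hg l
    choose c hc using fun l => ZMod.intCast_surjective (g l)
    have h1 : ∀ i, (p : ℤ) ∣ (∑ l, c l • (B l : Fin e → ℤ)) i := by
      intro i
      rw [← ZMod.intCast_zmod_eq_zero_iff_dvd]
      have h2 := congrFun hg i
      simp only [Finset.sum_apply, Pi.smul_apply, smul_eq_mul, Pi.zero_apply] at h2 ⊢
      rw [← h2]
      push_cast
      refine Finset.sum_congr rfl fun l _ => ?_
      rw [hc]
    choose d hd using h1
    have h3 : (p : ℤ) • (d : Fin e → ℤ) = ∑ l, c l • (B l : Fin e → ℤ) := by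
      funext i
      rw [Pi.smul_apply, smul_eq_mul, hd]
    have hmem : (∑ l, c l • (B l : Fin e → ℤ)) ∈ N :=
      Submodule.sum_mem _ fun l _ => N.smul_mem _ (B l).2
    have h4 : (d : Fin e → ℤ) ∈ N := hsat p d (by exact_mod_cast hp.ne_zero) (by rw [h3]; exact hmem)
    have h5 : ∑ l, c l • B l = ∑ l, ((p : ℤ) * B.repr ⟨d, h4⟩ l) • B l := by
      have h6 : (⟨d, h4⟩ : N) = ∑ l, B.repr ⟨d, h4⟩ l • B l := (B.sum_repr _).symm
      apply Subtype.ext
      rw [Submodule.coe_sum]
      simp only [Submodule.coe_smul]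
      rw [← h3]
      have h7 := congrArg (fun z : N => (p : ℤ) • (z : Fin e → ℤ)) h6
      simp only [Submodule.coe_sum, Submodule.coe_smul, Finset.smul_sum, smul_smul] at h7
      rw [Submodule.coe_sum]
      simp only [Submodule.coe_smul]
      exact h7
    have h8 := congrArg (fun z => B.repr z l) h5
    simp only [map_sum, map_smul, Basis.repr_self, Finsupp.coe_finsetSum, Finset.sum_apply,
      Finsupp.smul_apply, smul_eq_mul] at h8
    simp only [Finsupp.single_apply, mul_ite, mul_one, mul_zero, Finset.sum_ite_eq',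
      Finset.mem_univ, if_true] at h8
    rw [← hc, h8]
    push_cast
    rw [ZMod.natCast_self, zero_mul]
  have h1 := finrank_span_eq_card hli
  rw [Fintype.card_fin] at h1
  rw [← h1]
  apply Submodule.finrank_mono
  rw [Submodule.span_le]
  rintro _ ⟨l, rfl⟩
  exact Submodule.subset_span ⟨B l, (B l).2, rfl⟩

theorem reduction_orth (e : ℕ) (p : ℕ) (N₁ N₂ : Submodule ℤ (Fin e → ℤ))
    (C : Fin e → Fin e → ℤ) (hN : ∀ a ∈ N₁, ∀ b ∈ N₂, (p : ℤ) ∣ uform ℤ C a b) :
    ∀ a ∈ Submodule.span (ZMod p) {w : Fin e → ZMod p | ∃ a ∈ N₁, w = fun i => ((a i : ℤ) : ZMod p)},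
      ∀ b ∈ Submodule.span (ZMod p) {w | ∃ a ∈ N₂, w = fun i => ((a i : ℤ) : ZMod p)},
        uform (ZMod p) C a b = 0 := by
  have h1 : ∀ a ∈ N₁, ∀ b ∈ Submodule.span (ZMod p)
      {w : Fin e → ZMod p | ∃ a ∈ N₂, w = fun i => ((a i : ℤ) : ZMod p)},
      uform (ZMod p) C (fun i => ((a i : ℤ) : ZMod p)) b = 0 := by
    intro a ha b hb
    have h2 : Submodule.span (ZMod p) {w : Fin e → ZMod p | ∃ a ∈ N₂, w = fun i => ((a i : ℤ) : ZMod p)} ≤
        LinearMap.ker (uform (ZMod p) C (fun i => ((a i : ℤ) : ZMod p))) := by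
      rw [Submodule.span_le]
      rintro _ ⟨b', hb', rfl⟩
      show uform (ZMod p) C _ _ = 0
      rw [uform_cast, ZMod.intCast_zmod_eq_zero_iff_dvd]
      exact hN _ ha _ hb'
    exact h2 hb
  intro a ha b hb
  have h2 : Submodule.span (ZMod p) {w : Fin e → ZMod p | ∃ a ∈ N₁, w = fun i => ((a i : ℤ) : ZMod p)} ≤
      LinearMap.ker (LinearMap.flip (uform (ZMod p) C) b) := by
    rw [Submodule.span_le]
    rintro _ ⟨a', ha', rfl⟩
    exact h1 a' ha' b hb
  exact h2 ha

/-- Two saturated sublattices of `ℤ^e` which are orthogonal modulo the prime `p` for a unitriangular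
form have total rank at most `e`. -/
theorem isotropic_bound (e : ℕ) (p : ℕ) (hp : p.Prime) (N₁ N₂ : Submodule ℤ (Fin e → ℤ))
    (hsat₁ : ∀ (n : ℤ) (a : Fin e → ℤ), n ≠ 0 → n • a ∈ N₁ → a ∈ N₁)
    (hsat₂ : ∀ (n : ℤ) (a : Fin e → ℤ), n ≠ 0 → n • a ∈ N₂ → a ∈ N₂)
    (C : Fin e → Fin e → ℤ)
    (hN : ∀ a ∈ N₁, ∀ b ∈ N₂, (p : ℤ) ∣ uform ℤ C a b) :
    finrank ℤ N₁ + finrank ℤ N₂ ≤ e := by
  have : Fact p.Prime := ⟨hp⟩
  obtain ⟨W₁, hW₁, hW₁n⟩ := reduction e p hp N₁ hsat₁
  obtain ⟨W₂, hW₂, hW₂n⟩ := reduction e p hp N₂ hsat₂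
  have h1 := uform_rank (ZMod p) C W₁ W₂ (by
    rw [hW₁, hW₂]
    exact reduction_orth e p N₁ N₂ C hN)
  omega

/-! ### The sublattice of parabolic cocycles which come from the manifold -/

section Main

variable {Λ : Type} [AddCommGroup Λ] [Module.Free ℤ Λ] [Module.Finite ℤ Λ] (D : LagrangianData Λ)

omit [Module.Free ℤ Λ] [Module.Finite ℤ Λ] in
theorem rep_smul (n : ℤ) (a : Fin D.M.e → ℤ) (y : Λ) (h : D.L.rep a y) :
    D.L.rep (n • a) (n • y) := by
  have hz : D.L.rep 0 0 := (D.L.ker 0).2 ⟨0, by simp⟩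
  have hnat : ∀ k : ℕ, D.L.rep ((k : ℤ) • a) ((k : ℤ) • y) := by
    intro k
    induction k with
    | zero => simpa using hz
    | succ k ih =>
      have h1 := D.L.add _ _ _ _ ih h
      have e1 : ((k : ℤ) • a + a) = (((k + 1 : ℕ) : ℤ)) • a := by
        push_cast
        rw [add_smul, one_smul]
      have e2 : ((k : ℤ) • y + y) = (((k + 1 : ℕ) : ℤ)) • y := by
        push_cast
        rw [add_smul, one_smul]
      rwa [e1, e2] at h1
  rcases Int.eq_nat_or_neg n with ⟨k, rfl | rfl⟩
  · exact hnat k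
  · have h1 := D.L.neg _ _ (hnat k)
    rwa [← neg_smul, ← neg_smul] at h1

/-- the graph of the relation between cocycles and classes -/
def LagrangianData.G : Submodule ℤ ((Fin D.M.e → ℤ) × Λ) where
  carrier := {p | D.L.rep p.1 p.2}
  add_mem' := fun {p q} hp hq => D.L.add _ _ _ _ hp hq
  zero_mem' := (D.L.ker 0).2 ⟨0, by simp⟩
  smul_mem' := fun n p hp => rep_smul D n p.1 p.2 hp

/-- coordinates of the parabolic cocycles of the classes orthogonal to `x` -/
def LagrangianData.N : Submodule ℤ (Fin D.M.e → ℤ) :=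
  LinearMap.range ((LinearMap.fst ℤ (Fin D.M.e → ℤ) Λ).domRestrict D.G)

omit [Module.Free ℤ Λ] [Module.Finite ℤ Λ] in
theorem mem_N (a : Fin D.M.e → ℤ) : a ∈ D.N ↔ ∃ y, D.L.rep a y := by
  constructor
  · rintro ⟨⟨⟨a', y⟩, h⟩, rfl⟩
    exact ⟨y, h⟩
  · rintro ⟨y, h⟩
    exact ⟨⟨(a, y), h⟩, rfl⟩

omit [Module.Free ℤ Λ] [Module.Finite ℤ Λ] in
theorem N_sat (n : ℤ) (a : Fin D.M.e → ℤ) (hn : n ≠ 0) (h : n • a ∈ D.N) : a ∈ D.N := by
  obtain ⟨y, hy⟩ := (mem_N D _).1 h
  exact (mem_N D _).2 (D.L.all a (D.M.Par_sat n hn a (D.L.par _ y hy)))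

/-- the coboundaries -/
def Monodromy.cobMap (M : Monodromy) : (M.H →ₗ[ℤ] ℤ) →ₗ[ℤ] (Fin M.e → ℤ) where
  toFun φ i := φ (M.v i)
  map_add' _ _ := rfl
  map_smul' _ _ := rfl

omit [Module.Free ℤ Λ] [Module.Finite ℤ Λ] in
theorem finrank_Cob : finrank ℤ (LinearMap.range D.M.cobMap) = 2 * D.X.r := by
  have hinj : Function.Injective D.M.cobMap := by
    rw [← LinearMap.ker_eq_bot, LinearMap.ker_eq_bot']
    intro φ hφ
    have h1 : ∀ i < D.M.e, φ (D.M.v i) = 0 := fun i hi => congrFun hφ ⟨i, hi⟩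
    have h2 : Submodule.span ℤ (D.M.v '' Set.Iio D.M.e) ≤ LinearMap.ker φ := by
      rw [Submodule.span_le]
      rintro _ ⟨i, hi, rfl⟩
      exact h1 i hi
    rw [D.M.span] at h2
    ext y
    exact h2 (Submodule.mem_top (x := y))
  rw [← (LinearEquiv.ofInjective _ hinj).finrank_eq, ← D.rank_fibre]
  exact Module.finrank_linearMap_self ℤ ℤ D.M.H |>.trans (by simp)

omit [Module.Finite ℤ Λ] in
theorem finrank_Zx : finrank ℤ (Submodule.span ℤ {D.x}) = 1 := by
  let f : ℤ →ₗ[ℤ] Λ := LinearMap.toSpanSingleton ℤ _ D.x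
  have hf : LinearMap.range f = Submodule.span ℤ {D.x} := by
    exact LinearMap.range_toSpanSingleton D.x
  have hk : LinearMap.ker f = ⊥ := by
    rw [LinearMap.ker_eq_bot']
    intro n hn
    have h1 : n • D.x = 0 := hn
    exact (smul_eq_zero.1 h1).resolve_right D.x_ne
  have h := rank_nullity f
  rw [hf, hk, finrank_bot, Module.finrank_self] at h
  exact h

omit [Module.Free ℤ Λ] in
theorem finrank_ker_b : finrank ℤ (LinearMap.ker (D.X.b D.x)) + 1 = finrank ℤ Λ := by
  have h := rank_nullity (D.X.b D.x)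
  have h1 : finrank ℤ (LinearMap.range (D.X.b D.x)) = 1 := by
    apply le_antisymm
    · have := Submodule.finrank_le (LinearMap.range (D.X.b D.x))
      rwa [Module.finrank_self] at this
    · have : Nontrivial (LinearMap.range (D.X.b D.x)) := by
        refine ⟨⟨⟨D.X.b D.x D.w, D.w, rfl⟩, 0, ?_⟩⟩
        intro h0
        have h2 : D.X.b D.x D.w = 0 := congrArg Subtype.val h0
        rw [D.pairing] at h2
        have h3 := D.δ_pos
        have : D.δ = 0 := by exact_mod_cast h2
        omega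
      exact Module.finrank_pos
  omega

theorem finrank_N : finrank ℤ D.N + 2 = finrank ℤ Λ + 2 * D.X.r := by
  -- first projection of the graph
  let f : D.G →ₗ[ℤ] (Fin D.M.e → ℤ) := (LinearMap.fst ℤ (Fin D.M.e → ℤ) Λ).domRestrict D.G
  let g : D.G →ₗ[ℤ] Λ := (LinearMap.snd ℤ (Fin D.M.e → ℤ) Λ).domRestrict D.G
  have hf := rank_nullity f
  have hg := rank_nullity g
  have h1 : LinearMap.range f = D.N := rfl
  have h2 : LinearMap.range g = LinearMap.ker (D.X.b D.x) := by
    ext y
    rw [LinearMap.mem_ker, D.L.perp]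
    constructor
    · rintro ⟨⟨⟨a, y'⟩, h⟩, rfl⟩
      exact ⟨a, h⟩
    · rintro ⟨a, h⟩
      exact ⟨⟨(a, y), h⟩, rfl⟩
  have h3 : finrank ℤ (LinearMap.ker f) = 1 := by
    rw [← finrank_Zx D]
    let φ : LinearMap.ker f →ₗ[ℤ] Λ := g ∘ₗ (LinearMap.ker f).subtype
    have hφ : Function.Injective φ := by
      rintro ⟨⟨⟨a, y⟩, h⟩, hk⟩ ⟨⟨⟨a', y'⟩, h'⟩, hk'⟩ he
      have e1 : a = 0 := hk
      have e2 : a' = 0 := hk'
      have e3 : y = y' := he
      subst e1 e2 e3
      rfl
    have hr : LinearMap.range φ = Submodule.span ℤ {D.x} := by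
      ext y
      rw [Submodule.mem_span_singleton]
      constructor
      · rintro ⟨⟨⟨⟨a, y'⟩, h⟩, hk⟩, rfl⟩
        have e1 : a = 0 := hk
        subst e1
        obtain ⟨n, hn⟩ := (D.L.ker y').1 h
        exact ⟨n, hn.symm⟩
      · rintro ⟨n, rfl⟩
        exact ⟨⟨⟨(0, n • D.x), (D.L.ker _).2 ⟨n, rfl⟩⟩, rfl⟩, rfl⟩
    rw [← hr]
    exact (LinearEquiv.ofInjective φ hφ).finrank_eq
  have h4 : finrank ℤ (LinearMap.ker g) = 2 * D.X.r := by
    rw [← finrank_Cob D]
    let φ : LinearMap.ker g →ₗ[ℤ] (Fin D.M.e → ℤ) := f ∘ₗ (LinearMap.ker g).subtype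
    have hφ : Function.Injective φ := by
      rintro ⟨⟨⟨a, y⟩, h⟩, hk⟩ ⟨⟨⟨a', y'⟩, h'⟩, hk'⟩ he
      have e1 : y = 0 := hk
      have e2 : y' = 0 := hk'
      have e3 : a = a' := he
      subst e1 e2 e3
      rfl
    have hr : LinearMap.range φ = LinearMap.range D.M.cobMap := by
      ext a
      constructor
      · rintro ⟨⟨⟨⟨a', y⟩, h⟩, hk⟩, rfl⟩
        have e1 : y = 0 := hk
        subst e1
        obtain ⟨ψ, hψ⟩ := (D.L.cob a').1 h
        exact ⟨ψ, (funext hψ).symm⟩
      · rintro ⟨ψ, rfl⟩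
        exact ⟨⟨⟨(D.M.cobMap ψ, 0), (D.L.cob _).2 ⟨ψ, fun _ => rfl⟩⟩, rfl⟩, rfl⟩
    rw [← hr]
    exact (LinearEquiv.ofInjective φ hφ).finrank_eq
  rw [h1, h3] at hf
  rw [h2, h4] at hg
  have h5 := finrank_ker_b D
  omega

/-- the lattice of all `a` such that `g a` comes from the manifold -/
def LagrangianData.N' : Submodule ℤ (Fin D.M.e → ℤ) :=
  D.N.comap (LinearMap.pi fun i : Fin D.M.e => (D.M.g i : ℤ) • LinearMap.proj i)

omit [Module.Free ℤ Λ] [Module.Finite ℤ Λ] in
theorem mem_N' (a : Fin D.M.e → ℤ) : a ∈ D.N' ↔ (fun i : Fin D.M.e => D.M.g i * a i) ∈ D.N :=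
  Iff.rfl

omit [Module.Free ℤ Λ] [Module.Finite ℤ Λ] in
theorem N'_sat (n : ℤ) (a : Fin D.M.e → ℤ) (hn : n ≠ 0) (h : n • a ∈ D.N') : a ∈ D.N' := by
  rw [mem_N'] at h ⊢
  apply N_sat D n _ hn
  convert h using 1
  funext i
  simp only [Pi.smul_apply, smul_eq_mul]
  ring

omit [Module.Free ℤ Λ] [Module.Finite ℤ Λ] in
theorem finrank_N' : finrank ℤ D.N ≤ finrank ℤ D.N' := by
  classical
  let G : ℤ := ∏ i : Fin D.M.e, (D.M.g i : ℤ)
  have hG : ∀ i : Fin D.M.e, ∃ h : ℤ, h ≠ 0 ∧ G = D.M.g i * h := by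
    intro i
    refine ⟨∏ l ∈ Finset.univ.erase i, (D.M.g l : ℤ), ?_, ?_⟩
    · rw [Finset.prod_ne_zero_iff]
      intro l _
      exact_mod_cast (D.M.g_pos l).ne'
    · exact (Finset.mul_prod_erase _ _ (Finset.mem_univ i)).symm
  choose h hh0 hhG using hG
  let f : (Fin D.M.e → ℤ) →ₗ[ℤ] (Fin D.M.e → ℤ) := LinearMap.pi fun i => h i • LinearMap.proj i
  have hf : ∀ a i, f a i = h i * a i := fun a i => rfl
  let F : D.N →ₗ[ℤ] D.N' := (f ∘ₗ D.N.subtype).codRestrict D.N' (by
    rintro ⟨a, ha⟩
    rw [mem_N']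
    have h1 : (fun i : Fin D.M.e => (D.M.g i : ℤ) * (f a) i) = G • a := by
      funext i
      rw [hf, Pi.smul_apply, smul_eq_mul, hhG i]
      ring
    show (fun i : Fin D.M.e => (D.M.g i : ℤ) * (f a) i) ∈ D.N
    rw [h1]
    exact D.N.smul_mem _ ha)
  have hF : Function.Injective F := by
    rintro ⟨a, ha⟩ ⟨b, hb⟩ hab
    apply Subtype.ext
    funext i
    have h1 : f a = f b := congrArg Subtype.val hab
    have h2 := congrFun h1 i
    rw [hf, hf] at h2
    exact mul_left_cancel₀ (hh0 i) h2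
  exact LinearMap.finrank_le_finrank_of_injective hF

omit [Module.Free ℤ Λ] [Module.Finite ℤ Λ] in
/-- If `m` does not divide `δ`, the form is divisible by a prime. -/
theorem exists_prime (hnd : ¬ D.m ∣ D.δ) : ∃ p : ℕ, p.Prime ∧
    ∀ a ∈ D.N', ∀ b ∈ D.N, (p : ℤ) ∣ uform ℤ D.M.C a b := by
  obtain ⟨g, m', δ', hg, hcop, hm, hδ⟩ : ∃ g m' δ', 0 < g ∧ Nat.Coprime m' δ' ∧ D.m = m' * g ∧
      D.δ = δ' * g := Nat.exists_coprime' (Nat.gcd_pos_of_pos_left _ D.m_pos)
  have hm1 : m' ≠ 1 := by
    rintro rfl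
    exact hnd ⟨δ', by rw [hδ, hm]; ring⟩
  obtain ⟨p, hp, hpm⟩ := Nat.exists_prime_and_dvd hm1
  have hpδ : ¬ p ∣ δ' := by
    intro h
    have := Nat.dvd_gcd hpm h
    rw [hcop] at this
    exact hp.one_lt.ne' (Nat.dvd_one.1 this)
  refine ⟨p, hp, ?_⟩
  intro a ha b hb
  obtain ⟨y, hy⟩ := (mem_N D _).1 ((mem_N' D a).1 ha)
  obtain ⟨z, hz⟩ := (mem_N D _).1 hb
  have h1 := D.form _ b y z hy hz
  rw [D.M.S_int, hm, hδ] at h1
  set I := uform ℤ D.M.C a b with hI
  have h1' : ((m' * g : ℕ) : ℤ) * D.X.b y z = -(((δ' * g : ℕ) : ℤ) * I) := by exact_mod_cast h1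
  push_cast at h1'
  have hg0 : (g : ℤ) ≠ 0 := by exact_mod_cast hg.ne'
  have h2 : (m' : ℤ) * D.X.b y z = -((δ' : ℤ) * I) := by
    apply mul_left_cancel₀ hg0
    linear_combination h1'
  have h3 : (p : ℤ) ∣ (δ' : ℤ) * I := by
    rw [← dvd_neg, ← h2]
    exact Dvd.dvd.mul_right (by exact_mod_cast hpm) _
  rcases (Nat.prime_iff_prime_int.1 hp).dvd_or_dvd h3 with h | h
  · exact absurd (by exact_mod_cast h) hpδ
  · exact h

/-- If the discriminant has small degree, `m` divides `δ`. -/
theorem m_dvd (he : D.M.e + 4 < 2 * finrank ℤ Λ + 4 * D.X.r) : D.m ∣ D.δ := by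
  by_contra hnd
  obtain ⟨p, hp, key⟩ := exists_prime D hnd
  have hb := isotropic_bound D.M.e p hp D.N' D.N (fun n a hn h => N'_sat D n a hn h)
    (fun n a hn h => N_sat D n a hn h) D.M.C key
  have h2 := finrank_N D
  have h3 := finrank_N' D
  omega

omit [Module.Free ℤ Λ] [Module.Finite ℤ Λ] in
/-- The Fujiki constant. -/
theorem fujiki_eq (t : ℕ) (ht : D.δ = D.m * t) :
    D.X.f * (t : ℤ) ^ D.X.r * (2 ^ D.X.r * D.X.r.factorial : ℕ) =
      ((2 * D.X.r).factorial : ℕ) * D.pf := by
  have h := D.fujiki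
  rw [ht] at h
  have hm : ((D.m : ℤ)) ^ D.X.r ≠ 0 := pow_ne_zero _ (by exact_mod_cast D.m_pos.ne')
  apply mul_left_cancel₀ hm
  push_cast at h ⊢
  rw [mul_pow] at h
  linear_combination h

omit [Module.Free ℤ Λ] in
/-- If the Beauville-Bogomolov form takes an odd value, the degree of the polarisation is divisible by a
power of two. -/
theorem odd_pf (hmd : D.m ∣ D.δ) :
    ∃ t : ℕ, 0 < t ∧ D.δ = D.m * t ∧
      D.X.f * (t : ℤ) ^ D.X.r * (2 ^ D.X.r * D.X.r.factorial : ℕ) = ((2 * D.X.r).factorial : ℕ) * D.pf ∧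
      ((∃ α, Odd (D.X.b α α)) → 1 ≤ D.X.rankTwo ∧ 2 ^ min D.X.r D.X.rankTwo ∣ D.pf ∧
        (4 ≤ D.X.rankTwo → 2 ^ D.X.r ∣ D.pf)) := by
  obtain ⟨t, ht⟩ := hmd
  have ht0 : 0 < t := by
    rcases Nat.eq_zero_or_pos t with h | h
    · exfalso
      have := D.δ_pos
      rw [ht, h, mul_zero] at this
      exact absurd this (lt_irrefl 0)
    · exact h
  have hf := fujiki_eq D t ht
  refine ⟨t, ht0, ht, hf, ?_⟩
  intro hodd
  obtain ⟨h1, h2, h3⟩ := RiemannRochParity.result Λ D.X hodd
  obtain ⟨B, hB, hfac⟩ := factorial_two_mul D.X.r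
  have key : ∀ k : ℕ, (2 : ℤ) ^ k ∣ D.X.f → 2 ^ k ∣ D.pf := by
    intro k hk
    have h4 : D.X.f * (t : ℤ) ^ D.X.r = B * D.pf := by
      rw [hfac] at hf
      have h5 : ((2 ^ D.X.r * D.X.r.factorial : ℕ) : ℤ) ≠ 0 := by
        have : 2 ^ D.X.r * D.X.r.factorial ≠ 0 :=
          mul_ne_zero (pow_ne_zero _ two_ne_zero) (Nat.factorial_ne_zero _)
        exact_mod_cast this
      apply mul_right_cancel₀ h5
      rw [hf]
      push_cast
      ring
    have h6 : (2 : ℤ) ^ k ∣ (B : ℤ) * D.pf := by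
      rw [← h4]
      exact Dvd.dvd.mul_right hk _
    have h7 : 2 ^ k ∣ B * D.pf := by exact_mod_cast h6
    have h8 : Nat.Coprime (2 ^ k) B := by
      apply Nat.Coprime.pow_left
      exact (Nat.coprime_two_left).2 hB
    exact h8.dvd_of_dvd_mul_left h7
  exact ⟨h1, key _ h2, fun h => key _ (h3 h)⟩

/-- The second Betti number is bounded by the degree of the discriminant. -/
theorem betti_bound : finrank ℤ Λ + 4 * D.X.r ≤ D.M.e + 2 := by
  let f : (Fin D.M.e → ℤ) →ₗ[ℤ] (D.M.H →ₗ[ℤ] ℤ) :=
    Fintype.linearCombination ℤ fun i : Fin D.M.e => D.M.ψ i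
  have hf : ∀ a, f a = ∑ i : Fin D.M.e, a i • D.M.ψ i := fun a => rfl
  have h1 := rank_nullity f
  rw [Module.finrank_fin_fun] at h1
  -- the range has full rank
  classical
  let G : ℤ := ∏ i : Fin D.M.e, (D.M.g i : ℤ)
  have hG0 : G ≠ 0 := by
    rw [Finset.prod_ne_zero_iff]
    intro l _
    exact_mod_cast (D.M.g_pos l).ne'
  have h2 : ∀ y : D.M.H, G • D.M.E y ∈ LinearMap.range f := by
    intro y
    have hy : y ∈ Submodule.span ℤ (D.M.u '' Set.Iio D.M.e) := by
      rw [D.M.span_u]
      exact Submodule.mem_top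
    induction hy using Submodule.span_induction with
    | mem y hy =>
      obtain ⟨i, hi, rfl⟩ := hy
      have hi' : i < D.M.e := hi
      refine ⟨Pi.single ⟨i, hi'⟩ (G * D.M.g i), ?_⟩
      rw [hf, Finset.sum_eq_single (⟨i, hi'⟩ : Fin D.M.e)]
      · rw [Pi.single_eq_same]
        ext z
        rw [LinearMap.smul_apply, LinearMap.smul_apply, D.M.E_u i hi', smul_eq_mul, smul_eq_mul,
          mul_assoc]
      · intro j _ hj
        rw [Pi.single_eq_of_ne hj, zero_smul]
      · intro h
        exact absurd (Finset.mem_univ _) h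
    | zero =>
      rw [map_zero, smul_zero]
      exact Submodule.zero_mem _
    | add y z _ _ hy hz =>
      rw [map_add, smul_add]
      exact Submodule.add_mem _ hy hz
    | smul t y _ hy =>
      rw [map_smul, smul_comm]
      exact Submodule.smul_mem _ _ hy
  have h3 : 2 * D.X.r ≤ finrank ℤ (LinearMap.range f) := by
    let F : D.M.H →ₗ[ℤ] LinearMap.range f := (G • D.M.E).codRestrict _ h2
    have hF : Function.Injective F := by
      rw [← LinearMap.ker_eq_bot, LinearMap.ker_eq_bot']
      intro y hy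
      have h4 : G • D.M.E y = 0 := congrArg Subtype.val hy
      apply D.M.nondeg
      intro z
      have h5 := LinearMap.congr_fun h4 z
      rw [LinearMap.smul_apply, smul_eq_mul, LinearMap.zero_apply] at h5
      exact (mul_eq_zero.1 h5).resolve_left hG0
    rw [← D.rank_fibre]
    exact LinearMap.finrank_le_finrank_of_injective hF
  have h4 : D.N ≤ LinearMap.ker f := by
    intro a ha
    obtain ⟨y, hy⟩ := (mem_N D _).1 ha
    rw [LinearMap.mem_ker, hf]
    ext z
    rw [LinearMap.sum_apply, LinearMap.zero_apply]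
    exact D.M.closing a (D.L.par a y hy) z
  have h5 := Submodule.finrank_mono h4
  have h6 := finrank_N D
  omega

end Main

/-! ### Tangency classes -/

namespace Monodromy

variable (M : Monodromy)

/-- the map whose kernel is the group of closed vectors -/
def psiMap : (Fin M.e → ℤ) →ₗ[ℤ] (M.H →ₗ[ℤ] ℤ) :=
  Fintype.linearCombination ℤ fun i : Fin M.e => M.ψ i

theorem psiMap_apply (a : Fin M.e → ℤ) (y : M.H) : M.psiMap a y = ∑ i : Fin M.e, a i * M.ψ i y := by
  have h : M.psiMap a = ∑ i : Fin M.e, a i • M.ψ i := rfl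
  rw [h, LinearMap.sum_apply]
  rfl

theorem isClosed_iff (a : Fin M.e → ℤ) : M.IsClosed a ↔ M.psiMap a = 0 := by
  have h : ∀ y, ∑ i : Fin M.e, (a i : ℚ) / M.g i * M.E (M.u i) y = (M.psiMap a y : ℚ) := by
    intro y
    rw [psiMap_apply]
    push_cast
    refine Finset.sum_congr rfl fun i _ => ?_
    have hg : (M.g i : ℚ) ≠ 0 := by exact_mod_cast (M.g_pos i).ne'
    rw [M.E_u i i.2]
    push_cast
    field_simp
  unfold IsClosed
  constructor
  · intro hc
    ext y
    have h1 := hc y
    rw [h y] at h1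
    rw [LinearMap.zero_apply]
    exact_mod_cast h1
  · intro hc y
    rw [h y, hc]
    simp

variable {M}

theorem S_eq (hg : ∀ i < M.e, M.g i = 1) (a b : Fin M.e → ℤ) : M.S a b = (uform ℤ M.C a b : ℤ) := by
  rw [← S_int]
  congr 1
  funext i
  rw [hg i i.2]
  simp

theorem C_eq (hg : ∀ i < M.e, M.g i = 1) (j i : Fin M.e) : M.C j i = M.E (M.u j) (M.u i) := by
  unfold C
  rw [M.E_skew, M.E_u i i.2, hg i i.2]
  simp

theorem C_eq' (hg : ∀ i < M.e, M.g i = 1) (j i : Fin M.e) : M.C j i = M.ψ j (M.u i) := by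
  rw [C_eq hg, M.E_u j j.2, hg j j.2]
  simp

theorem uform_symm (hg : ∀ i < M.e, M.g i = 1) (a b : Fin M.e → ℤ) (ha : M.psiMap a = 0) :
    uform ℤ M.C a b = uform ℤ M.C b a := by
  have h1 : ∑ j : Fin M.e, ∑ i : Fin M.e, M.C j i * (a j * b i) = 0 := by
    rw [Finset.sum_comm]
    refine Finset.sum_eq_zero fun i _ => ?_
    have h2 := M.psiMap_apply a (M.u i)
    rw [ha, LinearMap.zero_apply] at h2
    have h3 : ∑ j : Fin M.e, M.C j i * (a j * b i) = (∑ j : Fin M.e, a j * M.ψ j (M.u i)) * b i := by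
      rw [Finset.sum_mul]
      refine Finset.sum_congr rfl fun j _ => ?_
      rw [C_eq' hg]
      ring
    rw [h3, ← h2, zero_mul]
  have h3 : ∑ j : Fin M.e, ∑ i : Fin M.e, M.C j i * (a j * b i) =
      (∑ j : Fin M.e, ∑ i : Fin M.e, if j < i then M.C j i * (a j * b i) else 0) -
        ∑ j : Fin M.e, ∑ i : Fin M.e, if j < i then M.C j i * (b j * a i) else 0 := by
    have h4 : (∑ j : Fin M.e, ∑ i : Fin M.e, if j < i then M.C j i * (b j * a i) else 0) =
        ∑ j : Fin M.e, ∑ i : Fin M.e, if i < j then M.C i j * (b i * a j) else 0 := by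
      rw [Finset.sum_comm]
    rw [h4, ← Finset.sum_sub_distrib]
    refine Finset.sum_congr rfl fun j _ => ?_
    rw [← Finset.sum_sub_distrib]
    refine Finset.sum_congr rfl fun i _ => ?_
    rcases lt_trichotomy j i with h | h | h
    · rw [if_pos h, if_neg (not_lt.2 h.le), sub_zero]
    · subst h
      rw [if_neg (lt_irrefl _), if_neg (lt_irrefl _), C_eq hg, M.alt]
      ring
    · rw [if_neg (not_lt.2 h.le), if_pos h, C_eq hg, C_eq hg, M.E_skew (M.u j) (M.u i)]
      ring
  have h5 : ∑ i : Fin M.e, a i * b i = ∑ i : Fin M.e, b i * a i :=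
    Finset.sum_congr rfl fun i _ => mul_comm _ _
  rw [uform_apply, uform_apply, h5]
  simp only [Int.cast_id]
  rw [h3] at h1
  linarith

theorem uform_cob (hg : ∀ i < M.e, M.g i = 1) (l : M.H →ₗ[ℤ] ℤ) (b : Fin M.e → ℤ)
    (hb : M.psiMap b = 0) : uform ℤ M.C (fun i => l (M.v i)) b = 0 := by
  have h1 : ∀ i : Fin M.e, l (M.u i) = l (M.v i) +
      ∑ j : Fin M.e, if j < i then M.C j i * l (M.v j) else 0 := by
    intro i
    have h2 := M.back_sum l (fun s => l (M.v s)) 0 i (Nat.zero_le _) i.2.le (fun _ _ _ => rfl) (M.u i)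
    have h3 : (M.P i)⁻¹ (M.u i) = M.v i := by
      rw [u_eq, inv_P']
    have h4 : (M.P 0)⁻¹ (M.u i) = M.u i := rfl
    rw [h3, h4] at h2
    have h5 : l (M.u i) = l (M.v i) + (l (M.u i) - l (M.v i)) := by ring
    rw [h5, h2]
    congr 1
    refine Finset.sum_congr rfl fun j _ => ?_
    by_cases h6 : j < i
    · have h7 : 0 ≤ (j : ℕ) ∧ (j : ℕ) < i := ⟨Nat.zero_le _, h6⟩
      rw [if_pos h6, if_pos h7, C_eq' hg]
      ring
    · have h7 : ¬ (0 ≤ (j : ℕ) ∧ (j : ℕ) < i) := fun h => h6 h.2
      rw [if_neg h6, if_neg h7]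
  have h2 : uform ℤ M.C (fun i => l (M.v i)) b = ∑ i : Fin M.e, b i * l (M.u i) := by
    rw [uform_apply]
    simp only [Int.cast_id]
    rw [Finset.sum_comm, ← Finset.sum_add_distrib]
    refine Finset.sum_congr rfl fun i _ => ?_
    rw [h1, mul_add, Finset.mul_sum]
    congr 1
    · ring
    · refine Finset.sum_congr rfl fun j _ => ?_
      split_ifs <;> ring
  have h3 : ∑ i : Fin M.e, b i • M.u i = 0 := by
    apply M.nondeg
    intro z
    rw [map_sum, LinearMap.sum_apply]
    have h4 := M.psiMap_apply b z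
    rw [hb, LinearMap.zero_apply] at h4
    rw [h4]
    refine Finset.sum_congr rfl fun i _ => ?_
    rw [map_smul, LinearMap.smul_apply, smul_eq_mul, M.E_u i i.2, hg i i.2]
    simp
  have h4 := congrArg l h3
  rw [map_sum, map_zero] at h4
  rw [h2, ← h4]
  refine Finset.sum_congr rfl fun i _ => ?_
  rw [map_smul, smul_eq_mul]

end Monodromy

section Main3

variable {Λ : Type} [AddCommGroup Λ] [Module.Free ℤ Λ] [Module.Finite ℤ Λ] (D : LagrangianData Λ)

/-- If the tangency classes are connected and `p` divides the form, the second Betti number is at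
most five. -/
theorem tangency_bound (Ta : D.M.Tangency) (p : ℕ) (hp : p.Prime)
    (hN : ∀ a ∈ D.N, ∀ b ∈ D.N, (p : ℤ) ∣ uform ℤ D.M.C a b) : finrank ℤ Λ ≤ 5 := by
  classical
  have hpf : Fact p.Prime := ⟨hp⟩
  obtain ⟨d, hd⟩ := Ta.same
  have hg := D.M.g_one d hd
  have hS := Monodromy.S_eq hg
  -- the lattice of the tangency classes
  set A : Submodule ℤ (Fin D.M.e → ℤ) := Submodule.span ℤ Ta.T with hA
  have hAclosed : ∀ a ∈ A, D.M.psiMap a = 0 := by
    have h : A ≤ LinearMap.ker D.M.psiMap := by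
      rw [hA, Submodule.span_le]
      intro t ht
      exact (D.M.isClosed_iff t).1 (Ta.closed t ht)
    exact fun a ha => h ha
  let B : A →ₗ[ℤ] A →ₗ[ℤ] ℤ := (uform ℤ D.M.C).domRestrict₁₂ A A
  have hB : ∀ a b : A, B a b = uform ℤ D.M.C a b := fun _ _ => rfl
  have hsymm : ∀ a b, B a b = B b a := fun a b => by
    rw [hB, hB]
    exact Monodromy.uform_symm hg _ _ (hAclosed a a.2)
  have hpos : ∀ a, 0 ≤ B a a := fun a => by
    have h := (Ta.definite a a.2).1
    rw [hS] at h
    rw [hB]
    exact_mod_cast h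
  have hzero : ∀ a, B a a = 0 → D.M.IsCob a := fun a ha => by
    apply (Ta.definite a a.2).2
    rw [hS, ← hB, ha]
    simp
  let T' : Set A := {a | (a : Fin D.M.e → ℤ) ∈ Ta.T}
  have hT' : ∀ t ∈ T', B t t = 2 := fun t ht => by
    have h := Ta.norm t ht
    rw [hS] at h
    rw [hB]
    exact_mod_cast h
  have hspan : ∀ a, (∀ t ∈ T', B t a = 0) → B a a = 0 := by
    intro a ha
    have h : Submodule.span ℤ Ta.T ≤
        LinearMap.ker (LinearMap.flip (uform ℤ D.M.C) (a : Fin D.M.e → ℤ)) :=
      Submodule.span_le.2 fun t ht => ha ⟨t, Submodule.subset_span ht⟩ ht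
    exact h a.2
  have hirr : ∀ U ⊆ T', (∀ t ∈ U, ∀ t' ∈ T', t' ∉ U → B t t' = 0) → U = ∅ ∨ U = T' := by
    intro U hU hUT
    have h := Ta.connected (Subtype.val '' U) (by
      rintro _ ⟨t, ht, rfl⟩
      exact hU ht) (by
      rintro _ ⟨t, ht, rfl⟩ t' ht' hnt'
      have h1 := hUT t ht ⟨t', Submodule.subset_span ht'⟩ ht' (fun h2 => hnt' ⟨_, h2, rfl⟩)
      rw [hS]
      rw [hB] at h1
      exact_mod_cast h1)
    rcases h with h | h
    · left
      exact Set.image_eq_empty.1 h
    · right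
      apply Set.Subset.antisymm hU
      intro t ht
      have h1 : (t : Fin D.M.e → ℤ) ∈ Subtype.val '' U := by
        rw [h]
        exact ht
      obtain ⟨t', ht', he⟩ := h1
      rwa [← Subtype.ext he]
  have hbound : ∀ k (δ : ℕ → A) par, IsTree B k δ par → k ≤ D.M.e := by
    intro k δ par h
    have hli : LinearIndependent ℤ fun i : Fin k => (δ i : Fin D.M.e → ℤ) := by
      rw [Fintype.linearIndependent_iff]
      intro x hx i
      let x' : ℕ → ℤ := fun i => if hi : i < k then x ⟨i, hi⟩ else 0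
      have hx' : ∀ i : Fin k, x' i = x i := by
        intro i
        simp only [x', i.2, dif_pos]
      have h1 : ∑ j ∈ range k, x' j • δ j = 0 := by
        apply Subtype.ext
        rw [Finset.sum_range, Submodule.coe_sum, Submodule.coe_zero, ← hx]
        refine Finset.sum_congr rfl fun j _ => ?_
        rw [Submodule.coe_smul, hx']
      have h2 := h.indep x' (by rw [h1, map_zero]) i i.2
      rwa [hx'] at h2
    have h1 := hli.fintype_card_le_finrank
    rwa [Fintype.card_fin, Module.finrank_fin_fun] at h1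
  obtain ⟨k, δ, par, htree, hdep⟩ := exists_tree hsymm hpos T' hT' hspan hirr D.M.e hbound
  -- orthogonality of `N` and `A`
  have hNA : ∀ a ∈ D.N, ∀ b ∈ A, uform ℤ D.M.C a b = 0 := by
    intro a ha b hb
    obtain ⟨y, hy⟩ := (mem_N D _).1 ha
    have hpar := D.L.par a y hy
    have h : A ≤ LinearMap.ker (uform ℤ D.M.C a) := by
      rw [hA, Submodule.span_le]
      intro t ht
      have h1 := Ta.orthogonal a hpar t ht
      rw [hS] at h1
      show uform ℤ D.M.C a t = 0
      exact_mod_cast h1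
    exact h hb
  have hAN : ∀ a ∈ A, ∀ b ∈ D.N, uform ℤ D.M.C a b = 0 := by
    intro a ha b hb
    rw [Monodromy.uform_symm hg _ _ (hAclosed a ha)]
    exact hNA b hb a ha
  -- the first inequality
  have hk : D.M.e ≤ 2 * D.X.r + finrank ℤ D.N + k := by
    have h1 := rank_nullity D.M.psiMap
    rw [Module.finrank_fin_fun] at h1
    have h2 : finrank ℤ (LinearMap.range D.M.psiMap) ≤ 2 * D.X.r := by
      have h3 := Submodule.finrank_le (LinearMap.range D.M.psiMap)
      have h4 : finrank ℤ (D.M.H →ₗ[ℤ] ℤ) = 2 * D.X.r := by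
        rw [← D.rank_fibre]
        exact Module.finrank_linearMap_self ℤ ℤ D.M.H |>.trans (by simp)
      omega
    let F : LinearMap.ker D.M.psiMap →ₗ[ℤ] (Fin k → ℤ) :=
      LinearMap.pi fun i => (LinearMap.flip (uform ℤ D.M.C) (δ i)).domRestrict _
    have hF : ∀ a i, F a i = uform ℤ D.M.C a (δ i) := fun _ _ => rfl
    have h5 := rank_nullity F
    have h6 : finrank ℤ (LinearMap.range F) ≤ k := by
      have h7 := Submodule.finrank_le (LinearMap.range F)
      rwa [Module.finrank_fin_fun] at h7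
    have h7 : finrank ℤ (LinearMap.ker F) ≤ finrank ℤ D.N := by
      let G : LinearMap.ker F →ₗ[ℤ] D.N :=
        ((LinearMap.ker D.M.psiMap).subtype ∘ₗ (LinearMap.ker F).subtype).codRestrict D.N (by
          rintro ⟨⟨a, ha⟩, hFa⟩
          have ha' : D.M.psiMap a = 0 := ha
          have h8 : ∀ i < k, uform ℤ D.M.C a (δ i) = 0 := by
            intro i hi
            have h9 : F ⟨a, ha⟩ = 0 := hFa
            exact congrFun h9 ⟨i, hi⟩
          have h9 : D.M.IsPar a := by
            apply Ta.zariski a ((D.M.isClosed_iff a).2 ha')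
            intro t ht
            obtain ⟨n, hn, x, hx⟩ := hdep ⟨t, Submodule.subset_span ht⟩ ht
            obtain ⟨l, hl⟩ := hzero _ hx
            have h10 := Monodromy.uform_cob hg l a ha'
            have h11 : (fun i : Fin D.M.e => l (D.M.v i)) =
                ((n • (⟨t, Submodule.subset_span ht⟩ : A) - ∑ i ∈ range k, x i • δ i : A) :
                  Fin D.M.e → ℤ) := by
              funext i
              exact (hl i).symm
            rw [h11, ← Monodromy.uform_symm hg _ _ ha', Submodule.coe_sub, Submodule.coe_smul,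
              Submodule.coe_sum, map_sub, map_smul, map_sum] at h10
            have h12 : ∑ i ∈ range k, uform ℤ D.M.C a ((x i • δ i : A) : Fin D.M.e → ℤ) = 0 := by
              refine Finset.sum_eq_zero fun i hi => ?_
              rw [Submodule.coe_smul, map_smul, h8 i (Finset.mem_range.1 hi), smul_zero]
            rw [h12, sub_zero, smul_eq_mul] at h10
            have h13 := (mul_eq_zero.1 h10).resolve_left hn
            rw [hS]
            exact_mod_cast h13
          exact (mem_N D _).2 (D.L.all a h9))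
      have hG : Function.Injective G := by
        rintro ⟨⟨a, ha⟩, hFa⟩ ⟨⟨b, hb⟩, hFb⟩ hab
        have h8 : a = b := congrArg Subtype.val hab
        subst h8
        rfl
      exact LinearMap.finrank_le_finrank_of_injective hG
    omega
  -- the second inequality
  obtain ⟨W, hW, hWn⟩ := reduction D.M.e p hp D.N (fun n a hn h => N_sat D n a hn h)
  have hWW : ∀ a ∈ W, ∀ b ∈ W, uform (ZMod p) D.M.C a b = 0 := by
    rw [hW]
    exact reduction_orth D.M.e p D.N D.N D.M.C hN
  let red : (Fin D.M.e → ℤ) → (Fin D.M.e → ZMod p) := fun a i => ((a i : ℤ) : ZMod p)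
  let VA : Submodule (ZMod p) (Fin D.M.e → ZMod p) :=
    Submodule.span (ZMod p) {w | ∃ a ∈ A, w = fun i => ((a i : ℤ) : ZMod p)}
  have hWA : ∀ a ∈ W, ∀ b ∈ VA, uform (ZMod p) D.M.C a b = 0 := by
    rw [hW]
    exact reduction_orth D.M.e p D.N A D.M.C fun a ha b hb => by
      rw [hNA a ha b hb]
      exact dvd_zero _
  have hAW : ∀ a ∈ VA, ∀ b ∈ W, uform (ZMod p) D.M.C a b = 0 := by
    rw [hW]
    exact reduction_orth D.M.e p A D.N D.M.C fun a ha b hb => by
      rw [hAN a ha b hb]
      exact dvd_zero _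
  have hredA : ∀ i, red (δ i) ∈ VA := fun i => Submodule.subset_span ⟨δ i, (δ i).2, rfl⟩
  let Θ : ((Fin k → ZMod p) × W) →ₗ[ZMod p] (Fin D.M.e → ZMod p) :=
    LinearMap.coprod (Fintype.linearCombination (ZMod p) fun i : Fin k => red (δ i)) W.subtype
  have hΘ : ∀ x w, Θ (x, w) = (∑ i : Fin k, x i • red (δ i)) + w := fun _ _ => rfl
  have hrange : finrank (ZMod p) W + finrank (ZMod p) (LinearMap.range Θ) ≤ D.M.e := by
    apply uform_rank (ZMod p) D.M.C
    rintro a ha _ ⟨⟨x, w⟩, rfl⟩
    rw [hΘ, map_add, hWW a ha w w.2, add_zero, map_sum]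
    refine Finset.sum_eq_zero fun i _ => ?_
    rw [map_smul, hWA a ha _ (hredA i), smul_zero]
  have hker : finrank (ZMod p) (LinearMap.ker Θ) ≤ 3 := by
    let R : LinearMap.ker Θ →ₗ[ZMod p] ({i // i ∈ childless k par} → ZMod p) :=
      { toFun := fun q i => q.1.1 ⟨i.1, Finset.mem_range.1 (Finset.mem_filter.1 i.2).1⟩
        map_add' := fun _ _ => rfl
        map_smul' := fun _ _ => rfl }
    have hR : Function.Injective R := by
      rw [← LinearMap.ker_eq_bot, LinearMap.ker_eq_bot']
      rintro ⟨⟨x, w⟩, hq⟩ hRq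
      have h1 : (∑ i : Fin k, x i • red (δ i)) + w = 0 := hq
      let x' : ℕ → ZMod p := fun i => if hi : i < k then x ⟨i, hi⟩ else 0
      have hx' : ∀ i : Fin k, x' i = x i := by
        intro i
        simp only [x', i.2, dif_pos]
      have h2 := htree.kernel k x' (by
        intro i hi
        have h3 : (∑ j : Fin k, x j • red (δ j)) = -(w : Fin D.M.e → ZMod p) :=
          eq_neg_of_add_eq_zero_left h1
        have h4 : uform (ZMod p) D.M.C (red (δ i)) (∑ j : Fin k, x j • red (δ j)) = 0 := by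
          rw [h3, map_neg, hAW _ (hredA i) w w.2, neg_zero]
        rw [map_sum] at h4
        rw [Finset.sum_range, ← h4]
        refine Finset.sum_congr rfl fun j _ => ?_
        rw [map_smul, hx', smul_eq_mul]
        congr 1
        exact (uform_cast (ZMod p) D.M.C (δ i) (δ j)).symm) (by
        intro i hi
        have hik := Finset.mem_range.1 (Finset.mem_filter.1 hi).1
        have h3 := congrFun hRq ⟨i, hi⟩
        have h4 : x ⟨i, hik⟩ = 0 := h3
        rw [← h4]
        exact hx' ⟨i, hik⟩)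
      have h3 : x = 0 := by
        funext i
        have h4 := h2 i i.2
        rwa [hx'] at h4
      subst h3
      have h4 : w = 0 := by
        apply Subtype.ext
        simpa using h1
      subst h4
      rfl
    have h1 := LinearMap.finrank_le_finrank_of_injective hR
    rw [Module.finrank_pi] at h1
    have h2 := htree.card_childless hsymm hpos k
    have h3 : Fintype.card {i // i ∈ childless k par} = (childless k par).card := by
      simp
    omega
  have hΘr := LinearMap.finrank_range_add_finrank_ker Θ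
  rw [Module.finrank_prod, Module.finrank_fin_fun] at hΘr
  have h2 := finrank_N D
  omega

end Main3

section Main4

variable {Λ : Type} [AddCommGroup Λ] [Module.Free ℤ Λ] [Module.Finite ℤ Λ] (D : LagrangianData Λ)

/-- If the tangency classes are connected and `b_2 ≥ 6`, then `m` divides `δ`. -/
theorem m_dvd_tangency (hb : 6 ≤ finrank ℤ Λ) (Ta : D.M.Tangency) : D.m ∣ D.δ := by
  by_contra hnd
  obtain ⟨p, hp, key⟩ := exists_prime D hnd
  obtain ⟨d, hd⟩ := Ta.same
  have hg := D.M.g_one d hd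
  have h := tangency_bound D Ta p hp (by
    intro a ha b hb
    apply key a ?_ b hb
    rw [mem_N']
    convert ha using 1
    funext i
    rw [hg i i.2]
    simp)
  omega

/-- Numerical type of the Hilbert schemes of K3 surfaces. -/
theorem numerics (hodd : ∃ α, Odd (D.X.b α α)) (hmd : D.m ∣ D.δ)
    (he : D.M.e ^ D.X.r * D.pf = (6 * D.X.r + 18) ^ D.X.r) : finrank ℤ Λ + D.X.r ≤ 11 := by
  have hr1 := D.X.one_le
  have hbb := betti_bound D
  have h1 : D.M.e ∣ 6 * D.X.r + 18 :=
    (Nat.pow_dvd_pow_iff (by omega)).1 ⟨D.pf, he.symm⟩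
  obtain ⟨q, hq⟩ := h1
  have he0 : 0 < D.M.e := by
    rcases Nat.eq_zero_or_pos D.M.e with h | h
    · rw [h, zero_mul] at hq
      omega
    · exact h
  have hpf : D.pf = q ^ D.X.r := by
    rw [hq, mul_pow] at he
    exact Nat.eq_of_mul_eq_mul_left (pow_pos he0 _) he
  obtain ⟨t, -, -, -, h2⟩ := odd_pf D hmd
  obtain ⟨h3, h4, -⟩ := h2 hodd
  have h5 : 2 ∣ D.pf := (dvd_pow_self 2 (by omega)).trans h4
  have h6 : 2 ∣ q := by
    rw [hpf] at h5
    exact Nat.prime_two.dvd_of_dvd_pow h5
  obtain ⟨q', rfl⟩ := h6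
  have h7 : 0 < q' := by
    rcases Nat.eq_zero_or_pos q' with h | h
    · rw [h] at hq
      omega
    · exact h
  have h8 : D.M.e * 2 ≤ 6 * D.X.r + 18 := by
    rw [hq]
    nlinarith
  omega

/-- Numerical type of the generalised Kummer varieties. -/
theorem numerics_kummer (hodd : ∃ α, Odd (D.X.b α α)) (hmd : D.m ∣ D.δ) (hr : 2 ≤ D.X.r)
    (hb : 7 ≤ finrank ℤ Λ)
    (he : D.M.e ^ D.X.r * D.pf = (6 * D.X.r + 6) ^ D.X.r * (D.X.r + 1)) :
    D.X.rankTwo ≤ 3 ∧ 2 ^ D.X.rankTwo ∣ D.X.r + 1 := by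
  have hbb := betti_bound D
  have hlt : D.X.r + 1 < 2 ^ D.X.r := by
    have key : ∀ n : ℕ, 2 ≤ n → n + 1 < 2 ^ n := by
      intro n hn
      induction n, hn using Nat.le_induction with
      | base => norm_num
      | succ n _ ih =>
        rw [pow_succ]
        omega
    exact key _ hr
  have he0 : 0 < D.M.e := by omega
  -- `e` divides `6 r + 6`
  obtain ⟨g, e', f', hg, hcop, hee, hff⟩ : ∃ g e' f', 0 < g ∧ Nat.Coprime e' f' ∧ D.M.e = e' * g ∧
      6 * D.X.r + 6 = f' * g := Nat.exists_coprime' (Nat.gcd_pos_of_pos_left _ he0)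
  have h1 : e' ^ D.X.r * D.pf = f' ^ D.X.r * (D.X.r + 1) := by
    rw [hee, hff, mul_pow, mul_pow] at he
    apply Nat.eq_of_mul_eq_mul_left (pow_pos hg D.X.r)
    linarith
  have h2 : e' ^ D.X.r ∣ D.X.r + 1 := by
    have h3 : e' ^ D.X.r ∣ f' ^ D.X.r * (D.X.r + 1) := ⟨D.pf, h1.symm⟩
    exact (Nat.Coprime.pow _ _ hcop).dvd_of_dvd_mul_left h3
  have h3 : e' = 1 := by
    have h4 := Nat.le_of_dvd (by omega) h2
    have h5 : e' < 2 := by
      by_contra h6
      push Not at h6
      have := Nat.pow_le_pow_left h6 D.X.r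
      omega
    have h6 : e' ≠ 0 := by
      rintro rfl
      omega
    omega
  rw [h3, one_mul] at hee
  rw [← hee] at hff
  rw [h3, one_pow, one_mul] at h1
  have h4 : f' = 1 := by
    have h5 : f' ≠ 0 := by
      rintro rfl
      omega
    have h6 : f' < 2 := by
      by_contra h7
      push Not at h7
      have h8 : 2 * D.M.e ≤ f' * D.M.e := Nat.mul_le_mul_right _ h7
      omega
    omega
  rw [h4, one_pow, one_mul] at h1
  obtain ⟨t, -, -, -, h5⟩ := odd_pf D hmd
  obtain ⟨h6, h7, h8⟩ := h5 hodd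
  rw [h1] at h7 h8
  have h9 : ¬ 2 ^ D.X.r ∣ D.X.r + 1 := fun h => by
    have := Nat.le_of_dvd (by omega) h
    omega
  have h10 : D.X.rankTwo ≤ 3 := by
    by_contra h11
    exact h9 (h8 (by omega))
  have h11 : D.X.rankTwo < D.X.r := by
    by_contra h12
    rw [min_eq_left (not_lt.1 h12)] at h7
    exact h9 h7
  rw [min_eq_right h11.le] at h7
  exact ⟨h10, h7⟩

/-- Let `D` be the data of a Lagrangian fibration and suppose that the Beauville-Bogomolov form takes an odd
value. Then `2 ^ min r s` divides the degree `pf` of the polarisation (`2 ^ r` if `s ≥ 4`), `s` the rank of the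
form modulo two, unless `2 (b_2 - 2 + 2 r) ≤ e` and (`b_2 ≤ 5` or there is no connected system of tangency
classes). Suppose moreover that all vanishing cycles have the same divisibility. If `b_2 ≥ 23` and the degree
of the discriminant is that of the Hilbert schemes of K3 surfaces, then `r ≥ 12` and there are no tangency
classes. If `b_2 ≥ 7`, `r ≥ 2`, there are tangency classes and the degree of the discriminant is that of the
generalised Kummer varieties, then `s ≤ 3` and `2 ^ s` divides `r + 1`. For fourfolds, where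
`deg ^ 2 pf = 992 - 4 b_2 + b_3`, the pair `(b_2, b_3)` is neither `(23, 0)` nor `(8, 0)` nor `(7, 0)`, nor
`(7, 8)` if there are tangency classes. -/
theorem result (Λ : Type) [AddCommGroup Λ] [Module.Free ℤ Λ] [Module.Finite ℤ Λ]
    (D : LagrangianData Λ) (hodd : ∃ α, Odd (D.X.b α α)) :
    ((1 ≤ D.X.rankTwo ∧ 2 ^ min D.X.r D.X.rankTwo ∣ D.pf ∧ (4 ≤ D.X.rankTwo → 2 ^ D.X.r ∣ D.pf)) ∨
      (2 * finrank ℤ Λ + 4 * D.X.r ≤ D.M.e + 4 ∧ (finrank ℤ Λ ≤ 5 ∨ IsEmpty D.M.Tangency))) ∧
    ((∃ d, ∀ i < D.M.e, D.M.g i = d) →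
      (23 ≤ finrank ℤ Λ → D.M.deg ^ D.X.r * D.pf = ((6 * D.X.r + 18) ^ D.X.r : ℕ) →
        12 ≤ D.X.r ∧ IsEmpty D.M.Tangency) ∧
      (7 ≤ finrank ℤ Λ → 2 ≤ D.X.r → Nonempty D.M.Tangency →
        D.M.deg ^ D.X.r * D.pf = ((6 * D.X.r + 6) ^ D.X.r * (D.X.r + 1) : ℕ) →
          D.X.rankTwo ≤ 3 ∧ 2 ^ D.X.rankTwo ∣ D.X.r + 1) ∧
      (D.X.r = 2 → ∀ b3 : ℕ, D.M.deg ^ 2 * D.pf + 4 * finrank ℤ Λ = (992 + b3 : ℕ) →
        ¬ (finrank ℤ Λ = 23 ∧ b3 = 0) ∧ ¬ (finrank ℤ Λ = 8 ∧ b3 = 0) ∧ ¬ (finrank ℤ Λ = 7 ∧ b3 = 0) ∧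
          (Nonempty D.M.Tangency → ¬ (finrank ℤ Λ = 7 ∧ b3 = 8)))) := by
  refine ⟨?_, ?_⟩
  · by_cases hmd : D.m ∣ D.δ
    · obtain ⟨t, -, -, -, h⟩ := odd_pf D hmd
      exact Or.inl (h hodd)
    · refine Or.inr ⟨?_, ?_⟩
      · by_contra he
        exact hmd (m_dvd D (by omega))
      · by_contra hc
        push Not at hc
        obtain ⟨hb, ⟨Ta⟩⟩ := hc
        exact hmd (m_dvd_tangency D hb Ta)
  · rintro ⟨d, hd⟩
    have hdeg := D.M.deg_eq d hd
    have hK3 : 23 ≤ finrank ℤ Λ → D.M.e ^ D.X.r * D.pf = (6 * D.X.r + 18) ^ D.X.r →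
        12 ≤ D.X.r ∧ IsEmpty D.M.Tangency := by
      intro hb he
      refine ⟨?_, ⟨?_⟩⟩
      · by_contra hr
        have hle : D.M.e ≤ 6 * D.X.r + 18 :=
          Nat.le_of_dvd (by omega)
            ((Nat.pow_dvd_pow_iff (by have := D.X.one_le; omega)).1 ⟨D.pf, he.symm⟩)
        have h := numerics D hodd (m_dvd D (by omega)) he
        omega
      · intro Ta
        have h := numerics D hodd (m_dvd_tangency D (by omega) Ta) he
        omega
    refine ⟨?_, ?_, ?_⟩
    · intro hb he
      rw [hdeg] at he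
      exact hK3 hb (by exact_mod_cast he)
    · rintro hb hr ⟨Ta⟩ he
      rw [hdeg] at he
      exact numerics_kummer D hodd (m_dvd_tangency D (by omega) Ta) hr hb (by exact_mod_cast he)
    · intro hr b3 hD
      rw [hdeg] at hD
      have hD' : D.M.e ^ 2 * D.pf + 4 * finrank ℤ Λ = 992 + b3 := by exact_mod_cast hD
      have hbb := betti_bound D
      have hsmall : finrank ℤ Λ ≤ 8 → b3 ≤ 8 → D.M.e < 32 := by
        intro h1 h2
        by_contra h
        push Not at h
        rcases Nat.eq_zero_or_pos D.pf with h3 | h3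
        · rw [h3, mul_zero] at hD'
          omega
        · nlinarith [Nat.mul_le_mul h h, Nat.mul_le_mul_left (D.M.e ^ 2) h3]
      refine ⟨?_, ?_, ?_, ?_⟩
      · rintro ⟨h1, h2⟩
        have h3 := (hK3 (by omega) (by
          rw [hr]
          rw [h1, h2] at hD'
          norm_num
          omega)).1
        omega
      · rintro ⟨h1, h2⟩
        rw [hr, h1] at hbb
        rw [h1, h2] at hD'
        have h4 : 14 ≤ D.M.e := by omega
        have he32 := hsmall (by omega) (by omega)
        generalize D.M.e = e at *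
        generalize D.pf = d at *
        interval_cases e <;> omega
      · rintro ⟨h1, h2⟩
        rw [hr, h1] at hbb
        rw [h1, h2] at hD'
        have h4 : 13 ≤ D.M.e := by omega
        have he32 := hsmall (by omega) (by omega)
        generalize D.M.e = e at *
        generalize D.pf = d at *
        interval_cases e <;> omega
      · rintro ⟨Ta⟩ ⟨h1, h2⟩
        have h3 := numerics_kummer D hodd (m_dvd_tangency D (by omega) Ta) (by omega) (by omega) (by
          rw [hr]
          rw [h1, h2] at hD'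
          norm_num
          omega)
        obtain ⟨h4, h5⟩ := h3
        rw [hr] at h5
        obtain ⟨t, -, -, -, h6⟩ := odd_pf D (m_dvd_tangency D (by omega) Ta)
        have h7 := (h6 hodd).1
        have h8 : 2 ∣ 2 + 1 := (dvd_pow_self 2 (by omega)).trans h5
        omega

end Main4

end Pool.Agent.Results.MP_7f2be9_ag.LagrangianParity
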