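import Mathlib

/-!
# Parity of the Beauville-Bogomolov form and 2-divisibility of the Fujiki constant

Let `X` be a hyperkähler manifold of complex dimension `2 r`, `q` its Beauville-Bogomolov form on
`H^2(X, Z)`, and `f` its Fujiki constant, so that the integral of `α ^ (2 r)` is `f * q α ^ r`.
By the Riemann-Roch theorem there is a polynomial `P` with rational coefficients, of degree `r`
and with top coefficient `f / (2 r)!`, such that `P (q α)` is an integer for every integral
class `α` (on a deformation of `X` the class `α` is the first Chern class of a line bundle `L`, and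
`P (q α)` is the Euler characteristic of `L`).  We show that if `q` takes an odd value, then
`f` is divisible by `2 ^ min r s`, where `s ≥ 1` is the rank of the bilinear form modulo `2`,
and by `2 ^ r` as soon as `s ≥ 4`.
-/

namespace Pool.Agent.Results.MP_7f2be9_ag.RiemannRochParity

open Polynomial Finset

/-- The numerical data of a hyperkähler manifold used here: `r` is half of the complex dimension,
`b` the integral symmetric bilinear form of the Beauville-Bogomolov form `q α = b α α` on
`Λ = H^2(X, Z)`, `f` the Fujiki constant, and `P` the Riemann-Roch polynomial. -/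
structure HKData (Λ : Type) [AddCommGroup Λ] where
  /-- half of the complex dimension -/
  r : ℕ
  one_le : 1 ≤ r
  /-- the bilinear form -/
  b : LinearMap.BilinForm ℤ Λ
  symm : ∀ x y, b x y = b y x
  /-- the Fujiki constant -/
  f : ℤ
  /-- the Riemann-Roch polynomial -/
  P : Polynomial ℚ
  natDegree_le : P.natDegree ≤ r
  coeff_top : P.coeff r = (f : ℚ) / ((2 * r).factorial : ℚ)
  integral : ∀ α : Λ, ∃ n : ℤ, P.eval ((b α α : ℤ) : ℚ) = (n : ℚ)

/-- The rank of the bilinear form modulo `2`: the dimension over the field with two elements of the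
space spanned by the functions `y ↦ b x y mod 2`. -/
noncomputable def HKData.rankTwo {Λ : Type} [AddCommGroup Λ] (X : HKData Λ) : ℕ :=
  Module.finrank (ZMod 2) (Submodule.span (ZMod 2)
    (Set.range fun x : Λ => fun y : Λ => ((X.b x y : ℤ) : ZMod 2)))

/-! ### Integer valued polynomials -/

lemma fwdDiff_top (N : ℕ) (R : ℚ[X]) (hR : R.natDegree ≤ N) (y : ℚ) :
    (fwdDiff (1 : ℚ))^[N] R.eval y = (N.factorial : ℚ) * R.coeff N := by
  rcases hR.lt_or_eq with h | h
  · rw [Polynomial.fwdDiff_iter_eq_zero_of_degree_lt h, coeff_eq_zero_of_natDegree_lt h]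
    simp
  · subst h
    rw [Polynomial.fwdDiff_iter_degree_eq_factorial]
    simp [mul_comm]

lemma diff_sum (N : ℕ) (R : ℚ[X]) (hR : R.natDegree ≤ N) (y : ℚ) :
    ∑ k ∈ range (N + 1), (((-1 : ℤ) ^ (N - k) * (N.choose k : ℤ) : ℤ) : ℚ) * R.eval (y + k)
      = (N.factorial : ℚ) * R.coeff N := by
  rw [← fwdDiff_top N R hR y, fwdDiff_iter_eq_sum_shift]
  refine sum_congr rfl fun k _ => ?_
  rw [zsmul_eq_mul]
  simp

/-- An integer valued polynomial in `u * x ^ 2` has an even top difference. -/
lemma even_top (n : ℕ) (hn : 1 ≤ n) (Q : ℚ[X]) (hQ : Q.natDegree ≤ n) (u : ℤ)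
    (hint : ∀ j : ℤ, ∃ z : ℤ, Q.eval ((u * j ^ 2 : ℤ) : ℚ) = (z : ℚ)) :
    ∃ z : ℤ, ((2 * n).factorial : ℚ) * (Q.coeff n * (u : ℚ) ^ n) = 2 * (z : ℚ) := by
  classical
  choose z hz using hint
  set R : ℚ[X] := ∑ k ∈ range (n + 1), C (Q.coeff k * (u : ℚ) ^ k) * X ^ (2 * k) with hRdef
  have hRdeg : R.natDegree ≤ 2 * n := by
    refine natDegree_sum_le_of_forall_le _ _ fun k hk => ?_
    refine (natDegree_C_mul_X_pow_le _ _).trans ?_
    have := mem_range.1 hk
    omega
  have hRcoeff : R.coeff (2 * n) = Q.coeff n * (u : ℚ) ^ n := by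
    rw [hRdef, finsetSum_coeff, sum_eq_single n]
    · rw [coeff_C_mul_X_pow, if_pos rfl]
    · intro k _ hk
      rw [coeff_C_mul_X_pow, if_neg (by omega)]
    · intro h
      exact absurd (mem_range.2 (Nat.lt_succ_self n)) h
  have hReval : ∀ j : ℤ, R.eval (j : ℚ) = (z j : ℚ) := by
    intro j
    rw [← hz j, hRdef, eval_finsetSum, Q.eval_eq_sum_range' (Nat.lt_succ_of_le hQ)]
    refine sum_congr rfl fun k _ => ?_
    simp only [eval_mul, eval_C, eval_pow, eval_X]
    push_cast
    ring
  have hsymm : ∀ j : ℤ, z (-j) = z j := by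
    intro j
    have h1 := hz (-j)
    have h2 := hz j
    rw [show u * (-j) ^ 2 = u * j ^ 2 by ring, h2] at h1
    exact_mod_cast h1.symm
  have hs := diff_sum (2 * n) R hRdeg (-(n : ℚ))
  rw [hRcoeff] at hs
  -- the sum as an integer
  have hs' : (((∑ k ∈ range (2 * n + 1),
      ((-1 : ℤ) ^ (2 * n - k) * ((2 * n).choose k : ℤ)) * z ((k : ℤ) - n) : ℤ)) : ℚ)
        = ((2 * n).factorial : ℚ) * (Q.coeff n * (u : ℚ) ^ n) := by
    rw [← hs, Int.cast_sum]
    refine sum_congr rfl fun k _ => ?_
    rw [Int.cast_mul]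
    congr 1
    rw [← hReval]
    congr 1
    push_cast
    ring
  set T : ℕ → ℤ := fun k => ((-1 : ℤ) ^ (2 * n - k) * ((2 * n).choose k : ℤ)) * z ((k : ℤ) - n)
    with hT
  have hTsymm : ∀ k, k ≤ 2 * n → T (2 * n - k) = T k := by
    intro k hk
    simp only [hT]
    rw [Nat.choose_symm hk]
    have h1 : ((-1 : ℤ)) ^ (2 * n - (2 * n - k)) = (-1) ^ (2 * n - k) := by
      rw [show 2 * n - (2 * n - k) = k by omega]
      have : ((-1 : ℤ)) ^ (2 * n - k) * (-1) ^ k = 1 := by
        rw [← pow_add, Nat.sub_add_cancel hk, pow_mul]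
        simp
      have h2 : ((-1 : ℤ)) ^ k * (-1) ^ k = 1 := by
        rw [← mul_pow]
        simp
      have h3 : ((-1 : ℤ)) ^ (2 * n - k) * ((-1) ^ k * (-1) ^ k) = (-1) ^ k := by
        rw [← mul_assoc, this, one_mul]
      rw [h2, mul_one] at h3
      exact h3.symm
    rw [h1]
    congr 1
    rw [← hsymm]
    congr 1
    rw [Nat.cast_sub hk]
    push_cast
    ring
  have hsplit : ∑ k ∈ range (2 * n + 1), T k = 2 * ∑ k ∈ range n, T k + T n := by
    have h1 : ∑ k ∈ range n, T (n + (k + 1)) = ∑ k ∈ range n, T k := by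
      rw [← sum_range_reflect (fun k => T (n + (k + 1))) n]
      refine sum_congr rfl fun k hk => ?_
      have hk' := mem_range.1 hk
      rw [← hTsymm k (by omega)]
      congr 1
      omega
    rw [show 2 * n + 1 = n + (n + 1) by ring, sum_range_add, sum_range_succ', h1]
    simp only [add_zero]
    ring
  have heven : (2 : ℤ) ∣ T n := by
    have h1 : 2 ∣ n.centralBinom := Nat.two_dvd_centralBinom_of_one_le hn
    obtain ⟨m, hm⟩ := h1
    simp only [hT]
    rw [show (2 * n).choose n = n.centralBinom from rfl, hm]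
    exact ⟨(-1) ^ (2 * n - n) * m * z (n - n), by push_cast; ring⟩
  obtain ⟨m, hm⟩ := heven
  refine ⟨∑ k ∈ range n, T k + m, ?_⟩
  rw [← hs', hsplit, hm]
  push_cast
  ring

/-- The first difference with step `u`. -/
lemma step_poly (n : ℕ) (P : ℚ[X]) (hP : P.natDegree ≤ n + 1) (u : ℤ) :
    ∃ P1 : ℚ[X], P1.natDegree ≤ n ∧ P1.coeff n = ((n : ℚ) + 1) * u * P.coeff (n + 1) ∧
      ∀ t : ℚ, P1.eval t = P.eval (t + u) - P.eval t := by
  refine ⟨taylor (u : ℚ) P - P, ?_, ?_, ?_⟩
  · rw [natDegree_le_iff_coeff_eq_zero]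
    intro k hk
    rw [coeff_sub, taylor_coeff]
    rcases (Nat.lt_or_ge (n + 1) k) with h | h
    · have h1 : hasseDeriv k P = 0 := by
        rw [hasseDeriv_eq_zero_of_lt_natDegree _ _ (lt_of_le_of_lt hP h)]
      rw [h1, coeff_eq_zero_of_natDegree_lt (lt_of_le_of_lt hP h)]
      simp
    · have hk' : k = n + 1 := le_antisymm h hk
      subst hk'
      have h1 : hasseDeriv (n + 1) P = C (P.coeff (n + 1)) := by
        ext j
        rw [hasseDeriv_coeff, coeff_C]
        split_ifs with hj
        · subst hj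
          simp
        · rw [coeff_eq_zero_of_natDegree_lt (by omega)]
          simp
      rw [h1]
      simp
  · rw [coeff_sub, taylor_coeff]
    have h1 : hasseDeriv n P = C (P.coeff n) + C (((n : ℚ) + 1) * P.coeff (n + 1)) * X := by
      ext j
      rw [hasseDeriv_coeff, coeff_add, coeff_C, coeff_C_mul, coeff_X]
      rcases j with _ | _ | j
      · simp
      · have h2 : (0 + 1 + n).choose n = n + 1 := by
          rw [show 0 + 1 + n = n + 1 by ring]
          simp
        rw [h2]
        rw [show 0 + 1 + n = n + 1 by ring]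
        simp
      · rw [coeff_eq_zero_of_natDegree_lt (show P.natDegree < j + 1 + 1 + n by omega)]
        simp
    rw [h1]
    simp
    ring
  · intro t
    rw [eval_sub, taylor_eval]

/-- Values of the diagonal form with coefficients `us`. -/
def rep : List ℤ → Set ℤ
  | [] => {0}
  | u :: us => {t | ∃ (x : ℤ) (s : ℤ), s ∈ rep us ∧ t = u * x ^ 2 + s}

lemma diag_bound : ∀ (us : List ℤ) (u : ℤ) (n : ℕ) (P : ℚ[X]), P.natDegree ≤ n →
    us.length + 1 ≤ n → (∀ v ∈ u :: us, Odd v) →
    (∀ t ∈ rep (u :: us), ∃ z : ℤ, P.eval (t : ℚ) = (z : ℚ)) →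
    ∃ (A : ℤ) (z : ℤ), Odd A ∧
      (2 : ℚ) ^ (n - (us.length + 1)) * A * ((n.factorial : ℚ) * P.coeff n) = (z : ℚ) := by
  intro us
  induction us with
  | nil =>
    intro u n P hP hn hodd hint
    obtain ⟨z, hz⟩ := even_top n (by simpa using hn) P hP u (fun j => by
      exact hint (u * j ^ 2) ⟨j, 0, rfl, by ring⟩)
    have hu : Odd u := hodd u (by simp)
    -- `(2 n)! = 2 ^ n * n! * odd`
    obtain ⟨B, hBodd, hB⟩ : ∃ B : ℕ, Odd B ∧ (2 * n).factorial = 2 ^ n * n.factorial * B := by
      clear hz hint hodd hP hn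
      induction n with
      | zero => exact ⟨1, odd_one, by simp⟩
      | succ n ih =>
        obtain ⟨B, hB1, hB2⟩ := ih
        refine ⟨B * (2 * n + 1), hB1.mul ⟨n, rfl⟩, ?_⟩
        rw [show 2 * (n + 1) = (2 * n + 1) + 1 by ring, Nat.factorial_succ, Nat.factorial_succ,
          hB2, Nat.factorial_succ]
        ring
    refine ⟨B * u ^ n, z, ?_, ?_⟩
    · exact (by exact_mod_cast hBodd : Odd (B : ℤ)).mul (hu.pow)
    · have h1 : (2 : ℚ) * ((2 : ℚ) ^ (n - (List.length ([] : List ℤ) + 1)) *
          ((B * u ^ n : ℤ) : ℚ) * ((n.factorial : ℚ) * P.coeff n)) = 2 * z := by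
        rw [← hz, hB]
        obtain ⟨k, rfl⟩ : ∃ k, n = k + 1 := ⟨n - 1, by simp at hn; omega⟩
        simp only [List.length_nil, zero_add, Nat.add_sub_cancel]
        push_cast
        ring
      exact mul_left_cancel₀ two_ne_zero h1
  | cons v us ih =>
    intro u n P hP hn hodd hint
    obtain ⟨k, rfl⟩ : ∃ k, n = k + 1 := ⟨n - 1, by simp at hn; omega⟩
    obtain ⟨P1, hd, hc, he⟩ := step_poly k P hP u
    obtain ⟨A, z, hA, hz⟩ := ih v k P1 hd (by simpa using hn)
      (fun w hw => hodd w (List.mem_cons_of_mem _ hw)) (by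
        intro t ht
        obtain ⟨z1, hz1⟩ := hint (u * 1 ^ 2 + t) ⟨1, t, ht, rfl⟩
        obtain ⟨z0, hz0⟩ := hint (u * 0 ^ 2 + t) ⟨0, t, ht, rfl⟩
        refine ⟨z1 - z0, ?_⟩
        rw [he]
        have h1 : (t : ℚ) + u = ((u * 1 ^ 2 + t : ℤ) : ℚ) := by push_cast; ring
        have h2 : (t : ℚ) = ((u * 0 ^ 2 + t : ℤ) : ℚ) := by push_cast; ring
        rw [h1, hz1]
        rw [h2, hz0]
        push_cast
        ring)
    refine ⟨A * u, z, hA.mul (hodd u (by simp)), ?_⟩
    rw [← hz, hc]
    simp only [List.length_cons, Nat.add_sub_add_right]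
    rw [Nat.factorial_succ]
    push_cast
    ring

/-! ### The lattice -/

section Lattice

variable {Λ : Type} [AddCommGroup Λ] (b : LinearMap.BilinForm ℤ Λ)

/-- `m` vectors whose Gram matrix is the identity modulo `2`. -/
def Ortho (m : ℕ) : Prop := ∃ e : Fin m → Λ, ∀ i j, Odd (b (e i) (e j)) ↔ i = j

lemma q_add (hs : ∀ x y, b x y = b y x) (x y : Λ) :
    b (x + y) (x + y) = b x x + 2 * b x y + b y y := by
  simp only [map_add, LinearMap.add_apply]
  rw [hs y x]
  ring

/-- Orthogonalisation over the integers with odd multipliers. -/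
lemma gram_schmidt (hs : ∀ x y, b x y = b y x) : ∀ (m : ℕ) (W : Submodule ℤ Λ) (e : Fin m → Λ),
    (∀ i, e i ∈ W) → (∀ i j, Odd (b (e i) (e j)) ↔ i = j) →
    ∃ us : List ℤ, us.length = m ∧ (∀ u ∈ us, Odd u) ∧ ∀ t ∈ rep us, ∃ x ∈ W, b x x = t := by
  intro m
  induction m with
  | zero =>
    intro W e _ _
    refine ⟨[], rfl, by simp, ?_⟩
    intro t ht
    have ht0 : t = 0 := ht
    exact ⟨0, W.zero_mem, by rw [ht0]; simp⟩
  | succ m ih =>
    intro W e heW he
    set u : ℤ := b (e 0) (e 0) with hu
    have hu1 : Odd u := (he 0 0).2 rfl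
    set W' : Submodule ℤ Λ := W ⊓ LinearMap.ker (b (e 0)) with hW'
    set e' : Fin m → Λ := fun i => u • e i.succ - b (e 0) (e i.succ) • e 0 with he'
    have hev : ∀ i : Fin m, Even (b (e 0) (e i.succ)) := by
      intro i
      rw [← Int.not_odd_iff_even, he]
      exact (Fin.succ_ne_zero i).symm
    obtain ⟨us, hlen, hodd, hrep⟩ := ih W' e' (by
      intro i
      refine ⟨W.sub_mem (W.smul_mem _ (heW _)) (W.smul_mem _ (heW _)), ?_⟩
      show b (e 0) (e' i) = 0
      simp only [he', map_sub, map_smul, smul_eq_mul]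
      rw [← hu]
      ring) (by
      intro i j
      have h1 : b (e' i) (e' j) = u ^ 2 * b (e i.succ) (e j.succ)
          - u * (b (e 0) (e i.succ) * b (e 0) (e j.succ)) := by
        simp only [he', map_sub, map_smul, LinearMap.sub_apply, LinearMap.smul_apply, smul_eq_mul]
        rw [hs (e i.succ) (e 0), ← hu]
        ring
      rw [h1]
      have h2 : Even (u * (b (e 0) (e i.succ) * b (e 0) (e j.succ))) :=
        ((hev i).mul_right _).mul_left _
      have h3 : Odd (u ^ 2) := hu1.pow
      have h4 : Odd (u ^ 2 * b (e i.succ) (e j.succ)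
          - u * (b (e 0) (e i.succ) * b (e 0) (e j.succ))) ↔ Odd (b (e i.succ) (e j.succ)) := by
        rw [Int.odd_sub, Int.odd_mul]
        constructor
        · intro h
          exact (h.2 h2).2
        · intro h
          exact ⟨fun _ => h2, fun _ => ⟨h3, h⟩⟩
      rw [h4, he]
      exact Fin.succ_inj)
    refine ⟨u :: us, by simp [hlen], ?_, ?_⟩
    · intro v hv
      rcases List.mem_cons.1 hv with rfl | hv
      · exact hu1
      · exact hodd v hv
    · rintro t ⟨x, s, hs', rfl⟩
      obtain ⟨w, hw, hw2⟩ := hrep s hs'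
      refine ⟨x • e 0 + w, W.add_mem (W.smul_mem _ (heW 0)) hw.1, ?_⟩
      rw [q_add b hs, hw2]
      have h0 : b (e 0) w = 0 := LinearMap.mem_ker.1 hw.2
      simp only [map_smul, LinearMap.smul_apply, smul_eq_mul, h0, ← hu]
      ring

/-- One more vector as long as the rank is not exhausted. -/
lemma ortho_step (hs : ∀ x y, b x y = b y x) (k : ℕ) (hk : 1 ≤ k) (h : Ortho b k)
    (hrank : k < Module.finrank (ZMod 2) (Submodule.span (ZMod 2)
      (Set.range fun x : Λ => fun y : Λ => ((b x y : ℤ) : ZMod 2)))) : Ortho b (k + 1) := by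
  classical
  obtain ⟨e, he⟩ := h
  by_cases h1 : ∃ x, (∀ i, Even (b (e i) x)) ∧ Odd (b x x)
  · obtain ⟨x, hx1, hx2⟩ := h1
    refine ⟨Fin.cons x e, ?_⟩
    intro i j
    refine Fin.cases ?_ (fun i' => ?_) i
    · refine Fin.cases ?_ (fun j' => ?_) j
      · simpa using hx2
      · simp only [Fin.cons_zero, Fin.cons_succ]
        rw [hs]
        constructor
        · intro h
          exact absurd h (Int.not_odd_iff_even.2 (hx1 j'))
        · intro h
          exact absurd h.symm (Fin.succ_ne_zero j')
    · refine Fin.cases ?_ (fun j' => ?_) j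
      · simp only [Fin.cons_zero, Fin.cons_succ]
        constructor
        · intro h
          exact absurd h (Int.not_odd_iff_even.2 (hx1 i'))
        · intro h
          exact absurd h (Fin.succ_ne_zero i')
      · simp only [Fin.cons_succ]
        rw [he]
        exact Fin.succ_inj.symm
  · push Not at h1
    have h1' : ∀ x, (∀ i, Even (b (e i) x)) → Even (b x x) := fun x hx =>
      Int.not_odd_iff_even.1 (h1 x hx)
    by_cases h2 : ∃ x y, (∀ i, Even (b (e i) x)) ∧ (∀ i, Even (b (e i) y)) ∧ Odd (b x y)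
    · obtain ⟨x, y, hx, hy, hxy⟩ := h2
      have hxx := h1' x hx
      have hyy := h1' y hy
      obtain ⟨k', rfl⟩ : ∃ k', k = k' + 1 := ⟨k - 1, by omega⟩
      have h00 : Odd (b (e 0) (e 0)) := (he 0 0).2 rfl
      have hev : ∀ i : Fin k', Even (b (e 0) (e i.succ)) := by
        intro i
        rw [← Int.not_odd_iff_even, he]
        exact (Fin.succ_ne_zero i).symm
      have ax : Odd (b (e 0 + x) (e 0 + x)) := by
        rw [q_add b hs]
        exact (h00.add_even (even_two_mul _)).add_even hxx
      have ay : Odd (b (e 0 + y) (e 0 + y)) := by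
        rw [q_add b hs]
        exact (h00.add_even (even_two_mul _)).add_even hyy
      have axy : Even (b (e 0 + x) (e 0 + y)) := by
        have h6 : b (e 0 + x) (e 0 + y) = (b (e 0) (e 0) + b (e 0) y) + (b (e 0) x + b x y) := by
          simp only [map_add, LinearMap.add_apply]
          rw [hs x (e 0)]
          ring
        rw [h6]
        exact (h00.add_even (hy 0)).add_odd ((hx 0).add_odd hxy)
      have ax' : ∀ i : Fin k', Even (b (e 0 + x) (e i.succ)) := by
        intro i
        rw [map_add, LinearMap.add_apply, hs x]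
        exact (hev i).add (hx _)
      have ay' : ∀ i : Fin k', Even (b (e 0 + y) (e i.succ)) := by
        intro i
        rw [map_add, LinearMap.add_apply, hs y]
        exact (hev i).add (hy _)
      refine ⟨Fin.cons (e 0 + x) (Fin.cons (e 0 + y) (fun i => e i.succ)), ?_⟩
      intro i j
      refine Fin.cases ?_ (fun i' => ?_) i
      · refine Fin.cases ?_ (fun j' => ?_) j
        · simpa using ax
        · refine Fin.cases ?_ (fun j'' => ?_) j'
          · simp only [Fin.cons_zero, Fin.cons_succ]
            constructor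
            · intro h
              exact absurd h (Int.not_odd_iff_even.2 axy)
            · intro h
              exact absurd h.symm (Fin.succ_ne_zero _)
          · simp only [Fin.cons_zero, Fin.cons_succ]
            constructor
            · intro h
              exact absurd h (Int.not_odd_iff_even.2 (ax' j''))
            · intro h
              exact absurd h.symm (Fin.succ_ne_zero _)
      · refine Fin.cases ?_ (fun i'' => ?_) i'
        · refine Fin.cases ?_ (fun j' => ?_) j
          · simp only [Fin.cons_zero, Fin.cons_succ]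
            rw [hs]
            constructor
            · intro h
              exact absurd h (Int.not_odd_iff_even.2 axy)
            · intro h
              exact absurd h (Fin.succ_ne_zero _)
          · refine Fin.cases ?_ (fun j'' => ?_) j'
            · simpa using ay
            · simp only [Fin.cons_zero, Fin.cons_succ]
              constructor
              · intro h
                exact absurd h (Int.not_odd_iff_even.2 (ay' j''))
              · intro h
                exact absurd (Fin.succ_inj.1 h).symm (Fin.succ_ne_zero _)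
        · refine Fin.cases ?_ (fun j' => ?_) j
          · simp only [Fin.cons_zero, Fin.cons_succ]
            rw [hs]
            constructor
            · intro h
              exact absurd h (Int.not_odd_iff_even.2 (ax' i''))
            · intro h
              exact absurd h (Fin.succ_ne_zero _)
          · refine Fin.cases ?_ (fun j'' => ?_) j'
            · simp only [Fin.cons_zero, Fin.cons_succ]
              rw [hs]
              constructor
              · intro h
                exact absurd h (Int.not_odd_iff_even.2 (ay' i''))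
              · intro h
                exact absurd (Fin.succ_inj.1 h) (Fin.succ_ne_zero _)
            · simp only [Fin.cons_succ]
              rw [he]
              constructor
              · intro h
                exact congrArg Fin.succ h
              · intro h
                exact Fin.succ_inj.1 h
    · -- the rank is at most `k`
      exfalso
      push Not at h2
      have h2' : ∀ x y, (∀ i, Even (b (e i) x)) → (∀ i, Even (b (e i) y)) → Even (b x y) :=
        fun x y hx hy => Int.not_odd_iff_even.1 (h2 x y hx hy)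
      -- the projection to the complement
      set pr : Λ → Λ := fun x => x - ∑ i, b (e i) x • e i with hpr
      have hprW : ∀ x i, Even (b (e i) (pr x)) := by
        intro x i
        have h3 : b (e i) (pr x) = b (e i) x * (1 - b (e i) (e i))
            - ∑ j ∈ univ.erase i, b (e j) x * b (e i) (e j) := by
          simp only [hpr, map_sub, map_sum, map_smul, smul_eq_mul]
          rw [← add_sum_erase univ _ (mem_univ i)]
          ring
        rw [h3]
        have h4 : Odd (b (e i) (e i)) := (he i i).2 rfl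
        refine Even.sub ((odd_one.sub_odd h4).mul_left _) ?_
        refine Finset.sum_induction _ Even (fun _ _ => Even.add) (by simp) ?_
        intro j hj
        have h5 : Even (b (e i) (e j)) := by
          rw [← Int.not_odd_iff_even, he]
          exact (ne_of_mem_erase hj).symm
        exact h5.mul_left _
      have hzero : ∀ x v, Even (b (pr x) v) := by
        intro x v
        have h3 : v = pr v + ∑ i, b (e i) v • e i := by simp [hpr]
        rw [h3]
        simp only [map_add, map_sum, map_smul, smul_eq_mul]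
        refine (h2' _ _ (hprW x) (hprW v)).add ?_
        refine Finset.sum_induction _ Even (fun _ _ => Even.add) (by simp) ?_
        intro j _
        rw [hs (pr x)]
        exact (hprW x j).mul_left _
      have hspan : Submodule.span (ZMod 2)
          (Set.range fun x : Λ => fun y : Λ => ((b x y : ℤ) : ZMod 2)) ≤
          Submodule.span (ZMod 2)
          (Set.range fun i : Fin k => fun y : Λ => ((b (e i) y : ℤ) : ZMod 2)) := by
        rw [Submodule.span_le]
        rintro _ ⟨x, rfl⟩
        have h3 : (fun y : Λ => ((b x y : ℤ) : ZMod 2))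
            = ∑ i, ((b (e i) x : ℤ) : ZMod 2) • fun y : Λ => ((b (e i) y : ℤ) : ZMod 2) := by
          funext y
          have h4 : b x y = b (pr x) y + ∑ i, b (e i) x * b (e i) y := by
            simp [hpr]
          rw [h4]
          have h5 : ((b (pr x) y : ℤ) : ZMod 2) = 0 := by
            rw [ZMod.intCast_zmod_eq_zero_iff_dvd]
            exact_mod_cast (hzero x y).two_dvd
          push_cast
          rw [h5]
          simp
        have h3' : (fun y : Λ => ((b x y : ℤ) : ZMod 2)) ∈ Submodule.span (ZMod 2)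
          (Set.range fun i : Fin k => fun y : Λ => ((b (e i) y : ℤ) : ZMod 2)) := by
          rw [h3]
          refine Submodule.sum_mem _ fun i _ => Submodule.smul_mem _ _ ?_
          exact Submodule.subset_span ⟨i, rfl⟩
        exact h3'
      have : Module.Finite (ZMod 2) (Submodule.span (ZMod 2)
          (Set.range fun i : Fin k => fun y : Λ => ((b (e i) y : ℤ) : ZMod 2))) :=
        Module.Finite.span_of_finite _ (Set.finite_range _)
      have hle := Submodule.finrank_mono hspan
      have hle2 := finrank_range_le_card (R := ZMod 2)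
        (fun i : Fin k => fun y : Λ => ((b (e i) y : ℤ) : ZMod 2))
      rw [Fintype.card_fin] at hle2
      have hle3 : Module.finrank (ZMod 2) (Submodule.span (ZMod 2)
        (Set.range fun i : Fin k => fun y : Λ => ((b (e i) y : ℤ) : ZMod 2))) ≤ k := hle2
      omega

/-- Four vectors with Gram matrix the identity modulo `2` represent everything modulo `8` that is
not divisible by `4`. -/
lemma base_eight (hs : ∀ x y, b x y = b y x) (h : Ortho b 4) (t : ℤ) (ht : ¬ (4 : ℤ) ∣ t) :
    ∃ x y, (8 : ℤ) ∣ b x x - t ∧ Odd (b x y) := by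
  obtain ⟨e, he⟩ := h
  have key : ∀ z y, Even (b z (e 3)) → Odd (b z y) → (4 : ℤ) ∣ b z z - t →
      ∃ x y, (8 : ℤ) ∣ b x x - t ∧ Odd (b x y) := by
    intro z y h1 h2 h3
    by_cases h4 : (8 : ℤ) ∣ b z z - t
    · exact ⟨z, y, h4, h2⟩
    · refine ⟨z + (2 : ℤ) • e 3, y, ?_, ?_⟩
      · rw [q_add b hs]
        simp only [map_smul, LinearMap.smul_apply, smul_eq_mul]
        have h5 : Odd (b (e 3) (e 3)) := (he 3 3).2 rfl
        obtain ⟨m, hm⟩ := h1
        obtain ⟨n, hn⟩ := h5
        rw [hm, hn]
        omega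
      · simp only [map_add, map_smul, LinearMap.add_apply, LinearMap.smul_apply, smul_eq_mul]
        exact h2.add_even (even_two_mul _)
  have u0 : Odd (b (e 0) (e 0)) := (he 0 0).2 rfl
  have u1 : Odd (b (e 1) (e 1)) := (he 1 1).2 rfl
  have u2 : Odd (b (e 2) (e 2)) := (he 2 2).2 rfl
  have hev : ∀ i j, i ≠ j → Even (b (e i) (e j)) := by
    intro i j hij
    rw [← Int.not_odd_iff_even, he]
    exact hij
  have e01 : Even (b (e 0) (e 1)) := hev 0 1 (by decide)
  have e02 : Even (b (e 0) (e 2)) := hev 0 2 (by decide)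
  have e12 : Even (b (e 1) (e 2)) := hev 1 2 (by decide)
  have e03 : Even (b (e 0) (e 3)) := hev 0 3 (by decide)
  have e13 : Even (b (e 1) (e 3)) := hev 1 3 (by decide)
  have e23 : Even (b (e 2) (e 3)) := hev 2 3 (by decide)
  by_cases c0 : (4 : ℤ) ∣ b (e 0) (e 0) - t
  · exact key (e 0) (e 0) e03 u0 c0
  by_cases c1 : (4 : ℤ) ∣ b (e 1) (e 1) - t
  · exact key (e 1) (e 1) e13 u1 c1
  by_cases c2 : (4 : ℤ) ∣ b (e 2) (e 2) - t
  · exact key (e 2) (e 2) e23 u2 c2
  have q01 : b (e 0 + e 1) (e 0 + e 1) = b (e 0) (e 0) + 2 * b (e 0) (e 1) + b (e 1) (e 1) :=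
    q_add b hs _ _
  have q02 : b (e 0 + e 2) (e 0 + e 2) = b (e 0) (e 0) + 2 * b (e 0) (e 2) + b (e 2) (e 2) :=
    q_add b hs _ _
  have q12 : b (e 1 + e 2) (e 1 + e 2) = b (e 1) (e 1) + 2 * b (e 1) (e 2) + b (e 2) (e 2) :=
    q_add b hs _ _
  have q012 : b (e 0 + e 1 + e 2) (e 0 + e 1 + e 2) = b (e 0 + e 1) (e 0 + e 1)
      + 2 * b (e 0 + e 1) (e 2) + b (e 2) (e 2) := q_add b hs _ _
  have l012 : b (e 0 + e 1) (e 2) = b (e 0) (e 2) + b (e 1) (e 2) := by
    simp only [map_add, LinearMap.add_apply]
  by_cases d01 : (4 : ℤ) ∣ b (e 0 + e 1) (e 0 + e 1) - t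
  · refine key (e 0 + e 1) (e 0) ?_ ?_ d01
    · simp only [map_add, LinearMap.add_apply]
      exact e03.add e13
    · simp only [map_add, LinearMap.add_apply]
      rw [hs (e 1) (e 0)]
      exact u0.add_even e01
  by_cases d02 : (4 : ℤ) ∣ b (e 0 + e 2) (e 0 + e 2) - t
  · refine key (e 0 + e 2) (e 0) ?_ ?_ d02
    · simp only [map_add, LinearMap.add_apply]
      exact e03.add e23
    · simp only [map_add, LinearMap.add_apply]
      rw [hs (e 2) (e 0)]
      exact u0.add_even e02
  by_cases d12 : (4 : ℤ) ∣ b (e 1 + e 2) (e 1 + e 2) - t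
  · refine key (e 1 + e 2) (e 1) ?_ ?_ d12
    · simp only [map_add, LinearMap.add_apply]
      exact e13.add e23
    · simp only [map_add, LinearMap.add_apply]
      rw [hs (e 2) (e 1)]
      exact u1.add_even e12
  refine key (e 0 + e 1 + e 2) (e 0) ?_ ?_ ?_
  · simp only [map_add, LinearMap.add_apply]
    exact (e03.add e13).add e23
  · simp only [map_add, LinearMap.add_apply]
    rw [hs (e 1) (e 0), hs (e 2) (e 0)]
    exact (u0.add_even e01).add_even e02
  · rw [q012, l012, q01]
    rw [q01] at d01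
    rw [q02] at d02
    rw [q12] at d12
    obtain ⟨a0, h0⟩ := u0
    obtain ⟨a1, h1⟩ := u1
    obtain ⟨a2, h2⟩ := u2
    obtain ⟨a01, h01⟩ := e01
    obtain ⟨a02, h02⟩ := e02
    obtain ⟨a12, h12⟩ := e12
    rw [h0] at c0 d01 d02 ⊢
    rw [h1] at c1 d01 d12 ⊢
    rw [h2] at c2 d02 d12 ⊢
    rw [h01] at d01 ⊢
    rw [h02] at d02 ⊢
    rw [h12] at d12 ⊢
    omega

lemma hensel (hs : ∀ x y, b x y = b y x) (h : Ortho b 4) (t : ℤ) (ht : ¬ (4 : ℤ) ∣ t) (N : ℕ)
    (hN : 3 ≤ N) : ∃ x y, (2 : ℤ) ^ N ∣ b x x - t ∧ Odd (b x y) := by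
  induction N, hN using Nat.le_induction with
  | base => simpa using base_eight b hs h t ht
  | succ N hN ih =>
    obtain ⟨x, y, ⟨k, hk⟩, hxy⟩ := ih
    rcases Int.even_or_odd k with ⟨m, hm⟩ | hk1
    · refine ⟨x, y, ⟨m, ?_⟩, hxy⟩
      rw [hk, hm]
      ring
    · obtain ⟨M, rfl⟩ : ∃ M, N = M + 3 := ⟨N - 3, by omega⟩
      refine ⟨x + (2 : ℤ) ^ (M + 2) • y, y, ?_, ?_⟩
      · rw [q_add b hs]
        simp only [map_smul, LinearMap.smul_apply, smul_eq_mul]
        obtain ⟨m, hm⟩ : Even (k + b x y) := hk1.add_odd hxy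
        have h1 : b x x = t + 2 ^ (M + 3) * k := by linarith
        refine ⟨m + 2 ^ M * b y y, ?_⟩
        rw [h1]
        have h2 : k = m + m - b x y := by linarith
        rw [h2]
        ring
      · simp only [map_add, map_smul, LinearMap.add_apply, LinearMap.smul_apply, smul_eq_mul]
        refine hxy.add_even ?_
        rw [show (2 : ℤ) ^ (M + 2) * b y y = 2 * (2 ^ (M + 1) * b y y) by ring]
        exact even_two_mul _

lemma universal (hs : ∀ x y, b x y = b y x) (h : Ortho b 4) (t : ℤ) (ht : t ≠ 0) (N : ℕ) :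
    ∃ x, (2 : ℤ) ^ N ∣ b x x - t := by
  have hfin : FiniteMultiplicity (4 : ℤ) t := Int.finiteMultiplicity_iff.2 ⟨by decide, ht⟩
  obtain ⟨t', ht', hnd⟩ := hfin.exists_eq_pow_mul_and_not_dvd
  obtain ⟨x, y, ⟨c, hc⟩, _⟩ := hensel b hs h t' hnd (N + 3) (by omega)
  refine ⟨(2 : ℤ) ^ (multiplicity 4 t) • x, ?_⟩
  simp only [map_smul, LinearMap.smul_apply, smul_eq_mul]
  have h1 : b x x = t' + 2 ^ (N + 3) * c := by linarith
  rw [h1]
  nth_rewrite 3 [ht']
  refine ⟨4 ^ (multiplicity 4 t) * (8 * c), ?_⟩
  have h2 : ((4 : ℤ)) ^ (multiplicity 4 t) = 2 ^ (multiplicity 4 t) * 2 ^ (multiplicity 4 t) := by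
    rw [← mul_pow]
    norm_num
  rw [h2]
  ring

/-- Integrality at the prime `2` of a polynomial which is integral on the values of `q`. -/
lemma local_integral (hs : ∀ x y, b x y = b y x) (h : Ortho b 4) (P : ℚ[X])
    (hint : ∀ α : Λ, ∃ n : ℤ, P.eval ((b α α : ℤ) : ℚ) = (n : ℚ)) :
    ∃ B : ℤ, Odd B ∧ ∀ t : ℤ, t ≠ 0 → ∃ z : ℤ, (B : ℚ) * P.eval (t : ℚ) = (z : ℚ) := by
  obtain ⟨D, hD, hR⟩ := IsLocalization.integerNormalization_spec
    (nonZeroDivisors ℤ) (S := ℚ) P
  set R : ℤ[X] := IsLocalization.integerNormalization (nonZeroDivisors ℤ) P with hRdef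
  have hD0 : D ≠ 0 := nonZeroDivisors.ne_zero hD
  have hReval : ∀ t : ℤ, ((R.eval t : ℤ) : ℚ) = D * P.eval (t : ℚ) := by
    intro t
    have h1 : (R.map (algebraMap ℤ ℚ)).eval (t : ℚ) = ((R.eval t : ℤ) : ℚ) := by
      have := Polynomial.eval_map_algebraMap R (t : ℚ) 
      rw [this]
      exact (Polynomial.aeval_algebraMap_apply ℚ t R).trans (by simp)
    rw [← h1, hR]
    simp
  have hfin : FiniteMultiplicity (2 : ℤ) D := Int.finiteMultiplicity_iff.2 ⟨by decide, hD0⟩
  obtain ⟨B, hB, hnd⟩ := hfin.exists_eq_pow_mul_and_not_dvd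
  set a := multiplicity (2 : ℤ) D with ha
  refine ⟨B, ?_, ?_⟩
  · rw [← Int.not_even_iff_odd, even_iff_two_dvd]
    exact hnd
  · intro t ht
    obtain ⟨x, hx⟩ := universal b hs h t ht a
    obtain ⟨n, hn⟩ := hint x
    have h1 : (2 : ℤ) ^ a ∣ R.eval (b x x) - R.eval t :=
      hx.trans (Polynomial.sub_dvd_eval_sub _ _ _)
    have h2 : R.eval (b x x) = D * n := by
      have := hReval (b x x)
      rw [hn] at this
      exact_mod_cast this
    have h3 : (2 : ℤ) ^ a ∣ R.eval t := by
      have h4 : (2 : ℤ) ^ a ∣ R.eval (b x x) := by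
        rw [h2, hB]
        exact ⟨B * n, by ring⟩
      have h5 := dvd_sub h4 h1
      rwa [sub_sub_cancel] at h5
    obtain ⟨z, hz⟩ := h3
    refine ⟨z, ?_⟩
    have h6 : ((2 : ℚ)) ^ a * ((B : ℚ) * P.eval (t : ℚ)) = 2 ^ a * z := by
      have h7 := hReval t
      rw [hz, hB] at h7
      push_cast at h7
      rw [h7]
      ring
    exact mul_left_cancel₀ (pow_ne_zero _ two_ne_zero) h6

end Lattice

/-! ### The theorem -/

lemma factorial_two_mul (n : ℕ) :
    ∃ B : ℕ, Odd B ∧ (2 * n).factorial = 2 ^ n * n.factorial * B := by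
  induction n with
  | zero => exact ⟨1, odd_one, by simp⟩
  | succ n ih =>
    obtain ⟨B, hB1, hB2⟩ := ih
    refine ⟨B * (2 * n + 1), hB1.mul ⟨n, rfl⟩, ?_⟩
    rw [show 2 * (n + 1) = (2 * n + 1) + 1 by ring, Nat.factorial_succ, Nat.factorial_succ,
      hB2, Nat.factorial_succ]
    ring

/-- From `2 ^ k * A * (r! * P_r)` integral with `A` odd and `k ≤ r` to divisibility of `f`. -/
lemma dvd_of_integral {Λ : Type} [AddCommGroup Λ] (X : HKData Λ) (k m : ℕ) (hkm : k + m = X.r)
    (A z : ℤ) (hA : Odd A)
    (h : (2 : ℚ) ^ k * A * ((X.r.factorial : ℚ) * X.P.coeff X.r) = (z : ℚ)) :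
    (2 : ℤ) ^ m ∣ X.f := by
  obtain ⟨B, hB, hfac⟩ := factorial_two_mul X.r
  rw [X.coeff_top, hfac] at h
  have hr : (X.r.factorial : ℚ) ≠ 0 := by exact_mod_cast X.r.factorial_ne_zero
  have hB0 : (B : ℚ) ≠ 0 := by
    have : B ≠ 0 := by
      rintro rfl
      exact absurd hB (by decide)
    exact_mod_cast this
  have h1 : (A : ℚ) * X.f = 2 ^ m * (B * z) := by
    rw [← h, ← hkm]
    push_cast
    rw [← hkm] at hr
    field_simp
    ring
  have h2 : A * X.f = 2 ^ m * (B * z) := by exact_mod_cast h1
  have h3 : IsCoprime ((2 : ℤ) ^ m) A := by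
    apply IsCoprime.pow_left
    rw [Int.isCoprime_iff_gcd_eq_one]
    exact Int.isCoprime_iff_gcd_eq_one.1 (by
      obtain ⟨c, hc⟩ := hA
      exact ⟨-c, 1, by rw [hc]; ring⟩)
  exact h3.dvd_of_dvd_mul_left ⟨B * z, h2⟩

/-- Let `X` be the numerical data of a hyperkähler manifold of dimension `2 r` with Fujiki constant
`f` and assume that the Beauville-Bogomolov form takes an odd value. Then the rank `s` of the
bilinear form modulo `2` is at least `1`, the Fujiki constant is divisible by `2 ^ min r s`, and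
it is divisible by `2 ^ r` if `s ≥ 4`. -/
theorem result (Λ : Type) [AddCommGroup Λ] [Module.Finite ℤ Λ] (X : HKData Λ)
    (hodd : ∃ α, Odd (X.b α α)) :
    1 ≤ X.rankTwo ∧ (2 : ℤ) ^ min X.r X.rankTwo ∣ X.f ∧
      (4 ≤ X.rankTwo → (2 : ℤ) ^ X.r ∣ X.f) := by
  classical
  obtain ⟨α, hα⟩ := hodd
  -- the span is finite dimensional
  have hfd : Module.Finite (ZMod 2) (Submodule.span (ZMod 2)
      (Set.range fun x : Λ => fun y : Λ => ((X.b x y : ℤ) : ZMod 2))) := by
    obtain ⟨s, hs⟩ := (Module.Finite.fg_top : (⊤ : Submodule ℤ Λ).FG)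
    have hle : Submodule.span (ZMod 2)
        (Set.range fun x : Λ => fun y : Λ => ((X.b x y : ℤ) : ZMod 2)) ≤
        Submodule.span (ZMod 2) (Set.range fun x : s => fun y : Λ =>
          ((X.b (x : Λ) y : ℤ) : ZMod 2)) := by
      rw [Submodule.span_le]
      rintro _ ⟨x, rfl⟩
      have hx : x ∈ Submodule.span ℤ (s : Set Λ) := by
        rw [hs]
        trivial
      show (fun y : Λ => ((X.b x y : ℤ) : ZMod 2)) ∈ _
      induction hx using Submodule.span_induction with
      | mem v hv => exact Submodule.subset_span ⟨⟨v, hv⟩, rfl⟩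
      | zero =>
        have h0 : (fun y : Λ => ((X.b 0 y : ℤ) : ZMod 2)) = 0 := by
          funext y
          simp
        rw [h0]
        exact Submodule.zero_mem _
      | add v w _ _ hv hw =>
        have h0 : (fun y : Λ => ((X.b (v + w) y : ℤ) : ZMod 2))
            = (fun y : Λ => ((X.b v y : ℤ) : ZMod 2)) + fun y : Λ => ((X.b w y : ℤ) : ZMod 2) := by
          funext y
          simp
        rw [h0]
        exact Submodule.add_mem _ hv hw
      | smul a v _ hv =>
        have h0 : (fun y : Λ => ((X.b (a • v) y : ℤ) : ZMod 2))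
            = (a : ZMod 2) • (fun y : Λ => ((X.b v y : ℤ) : ZMod 2)) := by
          funext y
          simp
        rw [h0]
        exact Submodule.smul_mem _ _ hv
    have : Module.Finite (ZMod 2) (Submodule.span (ZMod 2) (Set.range fun x : s => fun y : Λ =>
          ((X.b (x : Λ) y : ℤ) : ZMod 2))) := Module.Finite.span_of_finite _ (Set.finite_range _)
    exact Submodule.finiteDimensional_of_le hle
  have hone : 1 ≤ X.rankTwo := by
    unfold HKData.rankTwo
    rw [Nat.one_le_iff_ne_zero]
    intro h0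
    rw [Submodule.finrank_eq_zero] at h0
    have h1 : (fun y : Λ => ((X.b α y : ℤ) : ZMod 2)) ∈ Submodule.span (ZMod 2)
        (Set.range fun x : Λ => fun y : Λ => ((X.b x y : ℤ) : ZMod 2)) :=
      Submodule.subset_span ⟨α, rfl⟩
    rw [h0, Submodule.mem_bot] at h1
    have h2 := congrFun h1 α
    simp only [Pi.zero_apply] at h2
    rw [ZMod.intCast_zmod_eq_zero_iff_dvd] at h2
    exact (Int.not_even_iff_odd.2 hα) (even_iff_two_dvd.2 (by exact_mod_cast h2))
  have hortho : ∀ m, 1 ≤ m → m ≤ X.rankTwo → Ortho X.b m := by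
    intro m hm
    induction m, hm using Nat.le_induction with
    | base =>
      intro _
      refine ⟨fun _ => α, fun i j => ?_⟩
      constructor
      · intro _
        exact Subsingleton.elim i j
      · intro _
        exact hα
    | succ m hm ih =>
      intro h
      exact ortho_step X.b X.symm m hm (ih (by omega)) (by unfold HKData.rankTwo at h; omega)
  refine ⟨hone, ?_, ?_⟩
  · have hm1 : 1 ≤ min X.r X.rankTwo := le_min X.one_le hone
    obtain ⟨e, he⟩ := hortho _ hm1 (min_le_right _ _)
    obtain ⟨us, hlen, husodd, hrep⟩ := gram_schmidt X.b X.symm _ ⊤ e (fun _ => trivial) he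
    obtain ⟨u, us', rfl⟩ : ∃ u us', us = u :: us' := by
      cases us with
      | nil => simp at hlen; omega
      | cons u us' => exact ⟨u, us', rfl⟩
    obtain ⟨A, z, hA, hz⟩ := diag_bound us' u X.r X.P X.natDegree_le (by
      have : us'.length + 1 = min X.r X.rankTwo := by simpa using hlen
      rw [this]
      exact min_le_left _ _) husodd (by
      intro t ht
      obtain ⟨x, _, hx⟩ := hrep t ht
      obtain ⟨n, hn⟩ := X.integral x
      exact ⟨n, by rw [← hx]; exact hn⟩)
    have hlen' : us'.length + 1 = min X.r X.rankTwo := by simpa using hlen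
    rw [hlen'] at hz
    exact dvd_of_integral X _ _ (Nat.sub_add_cancel (min_le_left _ _)) A z hA hz
  · intro h4
    obtain ⟨B, hB, hBint⟩ := local_integral X.b X.symm (hortho 4 (by norm_num) h4) X.P X.integral
    have hd := diff_sum X.r X.P X.natDegree_le 1
    choose z hz using fun k : ℕ => hBint (1 + k) (by positivity)
    refine dvd_of_integral X 0 X.r (by simp) B
      (∑ k ∈ range (X.r + 1), ((-1 : ℤ) ^ (X.r - k) * (X.r.choose k : ℤ)) * z k) hB ?_
    rw [← hd, pow_zero, one_mul, mul_sum, Int.cast_sum]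
    refine sum_congr rfl fun k _ => ?_
    have hzk := hz k
    push_cast at hzk ⊢
    rw [← hzk]
    ring

end Pool.Agent.Results.MP_7f2be9_ag.RiemannRochParity
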